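import Mathlib

set_option autoImplicit false

namespace Pool.Agent.AT75

open Finset MvPolynomial

variable {p n : ℕ}

/-- the ideal generated by the p-th powers of the variables -/
noncomputable def Ipow (p n : ℕ) : Ideal (MvPolynomial (Fin n) (ZMod p)) :=
  Ideal.span (Set.range (fun i => X i ^ p))

/-- the linear form of a vector -/
noncomputable def linF (p n : ℕ) : (Fin n → ZMod p) →ₗ[ZMod p] MvPolynomial (Fin n) (ZMod p) :=
  Fintype.linearCombination (ZMod p) (fun i => (X i : MvPolynomial (Fin n) (ZMod p)))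

lemma linF_apply (v : Fin n → ZMod p) : linF p n v = ∑ i, v i • X i := by
  unfold linF
  rw [Fintype.linearCombination_apply]

/-- permutations lying over a balanced map -/
lemma card_over (φ : Fin (p - 1) × Fin n → Fin n)
    (hφ : ∀ i, (univ.filter (fun c => φ c = i)).card = p - 1) :
    (univ.filter (fun σ : Equiv.Perm (Fin (p - 1) × Fin n) => (fun c => (σ c).2) = φ)).card =
      ((p - 1).factorial) ^ n := by
  classical
  have hfib : ∀ i : Fin n, Fintype.card {r : Fin (p - 1) × Fin n // r.2 = i} = p - 1 := by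
    intro i
    rw [Fintype.card_subtype]
    have : (univ.filter (fun r : Fin (p - 1) × Fin n => r.2 = i)) =
        (univ : Finset (Fin (p - 1))) ×ˢ {i} := by
      ext ⟨x, y⟩; simp [eq_comm]
    rw [this, Finset.card_product]; simp
  have hfib' : ∀ i : Fin n, Fintype.card {r : Fin (p - 1) × Fin n // φ r = i} = p - 1 := by
    intro i
    rw [Fintype.card_subtype]; exact hφ i
  -- a permutation over φ
  let e : ∀ i, {r : Fin (p - 1) × Fin n // φ r = i} ≃ {r : Fin (p - 1) × Fin n // r.2 = i} :=
    fun i => Fintype.equivOfCardEq ((hfib' i).trans (hfib i).symm)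
  let σ₀ : Equiv.Perm (Fin (p - 1) × Fin n) :=
    Equiv.ofFiberEquiv (f := φ) (g := fun r => r.2) e
  have hσ₀ : ∀ c, (σ₀ c).2 = φ c := fun c => Equiv.ofFiberEquiv_map e c
  have h1 := DomMulAct.stabilizer_card (fun r : Fin (p - 1) × Fin n => r.2)
  simp only [hfib, Finset.prod_const, Finset.card_univ, Fintype.card_fin] at h1
  rw [← h1, Fintype.card_subtype]
  apply Finset.card_bij (fun σ _ => σ * σ₀⁻¹)
  · intro σ hσ
    rw [Finset.mem_filter] at hσ ⊢
    refine ⟨Finset.mem_univ _, ?_⟩
    funext c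
    have h2 : ∀ d, (σ d).2 = φ d := fun d => congrFun hσ.2 d
    simp only [Function.comp_apply, Equiv.Perm.mul_apply]
    rw [h2, ← hσ₀]
    simp
  · intro σ _ τ _ h
    exact mul_right_cancel h
  · intro τ hτ
    rw [Finset.mem_filter] at hτ
    refine ⟨τ * σ₀, ?_, by simp⟩
    rw [Finset.mem_filter]
    refine ⟨Finset.mem_univ _, ?_⟩
    funext c
    have h2 : ∀ d, (τ d).2 = d.2 := fun d => congrFun hτ.2 d
    simp only [Equiv.Perm.mul_apply]
    rw [h2, hσ₀]

lemma card_over_unbalanced (φ : Fin (p - 1) × Fin n → Fin n)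
    (hφ : ¬ ∀ i, (univ.filter (fun c => φ c = i)).card = p - 1) :
    (univ.filter (fun σ : Equiv.Perm (Fin (p - 1) × Fin n) => (fun c => (σ c).2) = φ)) = ∅ := by
  classical
  apply Finset.filter_eq_empty_iff.2
  intro σ _ hσ
  apply hφ
  intro i
  have h1 : (univ.filter (fun c => φ c = i)) =
      (univ.filter (fun r : Fin (p - 1) × Fin n => r.2 = i)).map σ.symm.toEmbedding := by
    ext c
    simp only [Finset.mem_filter, Finset.mem_univ, true_and, Finset.mem_map_equiv,
      Equiv.symm_symm]
    rw [← hσ]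
  rw [h1, Finset.card_map]
  have : (univ.filter (fun r : Fin (p - 1) × Fin n => r.2 = i)) =
      (univ : Finset (Fin (p - 1))) ×ˢ {i} := by
    ext ⟨x, y⟩; simp [eq_comm]
  rw [this, Finset.card_product]; simp

lemma permanent_eq [Fact p.Prime] (v : Fin (p - 1) × Fin n → (Fin n → ZMod p)) :
    Matrix.permanent (Matrix.of (fun (r c : Fin (p - 1) × Fin n) => v c r.2)) =
      ((((p - 1).factorial) ^ n : ℕ) : ZMod p) *
      ∑ φ ∈ univ.filter (fun φ : Fin (p - 1) × Fin n → Fin n =>
        ∀ i, (univ.filter (fun c => φ c = i)).card = p - 1), ∏ c, v c (φ c) := by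
  classical
  unfold Matrix.permanent
  have h1 : ∀ σ : Equiv.Perm (Fin (p - 1) × Fin n),
      ∏ c, Matrix.of (fun (r c : Fin (p - 1) × Fin n) => v c r.2) (σ c) c =
        (fun φ : Fin (p - 1) × Fin n → Fin n => ∏ c, v c (φ c)) (fun c => (σ c).2) := by
    intro σ; rfl
  rw [Finset.sum_congr rfl (fun σ _ => h1 σ)]
  rw [← Finset.sum_fiberwise univ (fun (σ : Equiv.Perm (Fin (p - 1) × Fin n)) =>
    (fun c => (σ c).2)) (fun σ => (fun φ : Fin (p - 1) × Fin n → Fin n => ∏ c, v c (φ c))
      (fun c => (σ c).2))]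
  rw [Finset.mul_sum, Finset.sum_filter]
  apply Finset.sum_congr rfl
  intro φ _
  have h2 : ∑ σ ∈ univ.filter (fun σ : Equiv.Perm (Fin (p - 1) × Fin n) =>
      (fun c => (σ c).2) = φ), (fun φ : Fin (p - 1) × Fin n → Fin n => ∏ c, v c (φ c))
      (fun c => (σ c).2) = (univ.filter (fun σ : Equiv.Perm (Fin (p - 1) × Fin n) =>
      (fun c => (σ c).2) = φ)).card • ∏ c, v c (φ c) := by
    rw [← Finset.sum_const]
    apply Finset.sum_congr rfl
    intro σ hσ
    rw [Finset.mem_filter] at hσ
    rw [← hσ.2]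
  rw [h2]
  split_ifs with h
  · rw [card_over φ h, nsmul_eq_mul]
  · rw [card_over_unbalanced φ h]; simp

/-- nonzero product gives a nonzero permanent -/
theorem permanent_ne [hp : Fact p.Prime] (v : Fin (p - 1) × Fin n → (Fin n → ZMod p))
    (h : ∏ c, linF p n (v c) ∉ Ipow p n) :
    Matrix.permanent (Matrix.of (fun (r c : Fin (p - 1) × Fin n) => v c r.2)) ≠ 0 := by
  classical
  intro h0
  apply h
  rw [permanent_eq] at h0
  have hfac : ((((p - 1).factorial) ^ n : ℕ) : ZMod p) ≠ 0 := by
    rw [Ne, ZMod.natCast_eq_zero_iff]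
    intro hdvd
    have h1 := hp.out.dvd_of_dvd_pow hdvd
    rw [hp.out.dvd_factorial] at h1
    have := hp.out.pos
    omega
  have h1 := (mul_eq_zero.1 h0).resolve_left hfac
  have h2 : ∏ c, linF p n (v c) = ∑ φ : Fin (p - 1) × Fin n → Fin n,
      (∏ c, v c (φ c)) • ∏ c, (X (φ c) : MvPolynomial (Fin n) (ZMod p)) := by
    simp only [linF_apply]
    rw [Finset.prod_univ_sum]
    rw [Fintype.piFinset_univ]
    apply Finset.sum_congr rfl
    intro φ _
    rw [Finset.prod_smul]
  rw [h2, ← Finset.sum_filter_add_sum_filter_not univ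
    (fun φ : Fin (p - 1) × Fin n → Fin n =>
        ∀ i, (univ.filter (fun c => φ c = i)).card = p - 1)]
  have hX : ∀ φ : Fin (p - 1) × Fin n → Fin n,
      ∏ c, (X (φ c) : MvPolynomial (Fin n) (ZMod p)) =
        ∏ i, X i ^ (univ.filter (fun c => φ c = i)).card := by
    intro φ
    rw [← Finset.prod_fiberwise univ φ (fun c => (X (φ c) : MvPolynomial (Fin n) (ZMod p)))]
    apply Finset.prod_congr rfl
    intro i _
    rw [← Finset.prod_const]
    apply Finset.prod_congr rfl
    intro c hc
    rw [Finset.mem_filter] at hc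
    rw [hc.2]
  apply Ideal.add_mem
  · have h3 : ∀ φ ∈ univ.filter (fun φ : Fin (p - 1) × Fin n → Fin n =>
        ∀ i, (univ.filter (fun c => φ c = i)).card = p - 1),
        (∏ c, v c (φ c)) • ∏ c, (X (φ c) : MvPolynomial (Fin n) (ZMod p)) =
        (∏ c, v c (φ c)) • ∏ i, (X i : MvPolynomial (Fin n) (ZMod p)) ^ (p - 1) := by
      intro φ hφ
      rw [Finset.mem_filter] at hφ
      rw [hX φ]
      congr 1
      apply Finset.prod_congr rfl
      intro i _
      rw [hφ.2 i]
    rw [Finset.sum_congr rfl h3, ← Finset.sum_smul, h1, zero_smul]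
    exact Ideal.zero_mem _
  · apply Ideal.sum_mem
    intro φ hφ
    rw [Finset.mem_filter] at hφ
    have h3 : ∃ i, p ≤ (univ.filter (fun c => φ c = i)).card := by
      by_contra hcon
      push Not at hcon
      apply hφ.2
      have hsum : ∑ i, (univ.filter (fun c => φ c = i)).card = (p - 1) * n := by
        rw [← Finset.card_eq_sum_card_fiberwise (f := φ) (s := univ) (t := univ)
          (fun _ _ => Finset.mem_coe.2 (Finset.mem_univ _))]
        simp
      have hle : ∀ i ∈ (univ : Finset (Fin n)),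
          (univ.filter (fun c => φ c = i)).card ≤ p - 1 := by
        intro i _
        have := hcon i
        omega
      have hsum' : ∑ i, (univ.filter (fun c => φ c = i)).card = ∑ i : Fin n, (p - 1) := by
        rw [hsum]; simp [mul_comm]
      intro i
      exact (Finset.sum_eq_sum_iff_of_le hle).1 hsum' i (Finset.mem_univ i)
    obtain ⟨i, hi⟩ := h3
    rw [hX φ, smul_eq_C_mul]
    apply Ideal.mul_mem_left
    rw [← Finset.mul_prod_erase _ _ (Finset.mem_univ i)]
    apply Ideal.mul_mem_right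
    rw [← Nat.sub_add_cancel hi, pow_add]
    apply Ideal.mul_mem_left
    exact Ideal.subset_span ⟨i, rfl⟩

end Pool.Agent.AT75
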