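import Pool.Agent.Helper75_AT.Main

set_option autoImplicit false

namespace Pool.Agent.AT75

open Finset Module

variable {ι K V A : Type*} [DecidableEq ι] [Field K] [AddCommGroup V] [Module K V]
  [CommRing A] [Algebra K A]

omit [DecidableEq ι] in
lemma lin_mul_mon_mem {d : ℕ} (lin : V →ₗ[K] A) (v : Fin d → V) (k : ℕ) {x : V}
    (hx : x ∈ Submodule.span K (Set.range v)) {m : A}
    (hm : m ∈ Submodule.span K {y : A | ∃ α : Fin d → ℕ, ∑ i, α i = k ∧ y = mon lin v α}) :
    lin x * m ∈ Submodule.span K {y : A | ∃ α : Fin d → ℕ, ∑ i, α i = k + 1 ∧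
      y = mon lin v α} := by
  induction hx using Submodule.span_induction with
  | mem x hx =>
    obtain ⟨i, rfl⟩ := hx
    induction hm using Submodule.span_induction with
    | mem y hy =>
      obtain ⟨α, hα, rfl⟩ := hy
      apply Submodule.subset_span
      refine ⟨α + Pi.single i 1, ?_, (mon_add_single lin v α i).symm⟩
      simp only [Pi.add_apply, Finset.sum_add_distrib, hα]
      simp
    | zero => simp
    | add y z _ _ hy hz => rw [mul_add]; exact Submodule.add_mem _ hy hz
    | smul c y _ hy => rw [mul_smul_comm]; exact Submodule.smul_mem _ _ hy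
  | zero => simp
  | add x y _ _ hx hy => rw [map_add, add_mul]; exact Submodule.add_mem _ hx hy
  | smul c x _ hx => rw [map_smul, smul_mul_assoc]; exact Submodule.smul_mem _ _ hx

/-- too many factors from a subspace -/
lemma top_mul {p : ℕ} (hp : 0 < p) [FiniteDimensional K V]
    (lin : V →ₗ[K] A) (I : Ideal A) (hI1 : ∀ v, lin v ^ p ∈ I)
    (a : ι → V) (P : Submodule K V) (C : Finset ι) (hC : ∀ i ∈ C, a i ∈ P)
    (hCc : C.card = (p - 1) * finrank K P) {x : V} (hx : x ∈ P) :
    lin x * pr lin a C ∈ I := by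
  set b := Module.finBasis K P with hb
  set v : Fin (finrank K P) → V := fun i => (b i : V) with hvdef
  have hspan : Submodule.span K (Set.range v) = P := by
    have h1 : Set.range v = P.subtype '' (Set.range b) := by
      ext x; simp [hvdef]
    rw [h1, ← Submodule.map_span, b.span_eq, Submodule.map_top, Submodule.range_subtype]
  have h1 := pr_mem_mon lin a v C (fun j hj => by rw [hspan]; exact hC j hj)
  have h2 := lin_mul_mon_mem lin v C.card (by rw [hspan]; exact hx) h1
  have h3 : Submodule.span K {y : A | ∃ α : Fin (finrank K P) → ℕ, ∑ i, α i = C.card + 1 ∧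
      y = mon lin v α} ≤ I.restrictScalars K := by
    apply Submodule.span_le.2
    rintro y ⟨α, hα, rfl⟩
    have : ∃ i, p ≤ α i := by
      by_contra hcon
      push Not at hcon
      have h4 : ∑ i, α i ≤ ∑ i : Fin (finrank K P), (p - 1) :=
        Finset.sum_le_sum (fun i _ => by have := hcon i; omega)
      simp only [Finset.sum_const, Finset.card_univ, Fintype.card_fin, smul_eq_mul] at h4
      rw [hα, hCc, mul_comm] at h4
      omega
    obtain ⟨i, hi⟩ := this
    have h5 : mon lin v α = (lin (v i) ^ (α i - p) *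
        ∏ j ∈ Finset.univ.erase i, lin (v j) ^ α j) * lin (v i) ^ p := by
      have h6 : mon lin v α = lin (v i) ^ α i * ∏ j ∈ Finset.univ.erase i, lin (v j) ^ α j :=
        (Finset.mul_prod_erase _ (fun j => lin (v j) ^ α j) (Finset.mem_univ i)).symm
      rw [h6]
      conv_lhs => rw [← Nat.sub_add_cancel hi, pow_add]
      ring
    show mon lin v α ∈ I
    rw [h5]; exact I.mul_mem_left _ (hI1 _)
  exact h3 h2

/-- the colon ideal -/
def colonI (I : Ideal A) (ω : A) : Ideal A where
  carrier := {x | ω * x ∈ I}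
  add_mem' := by
    intro x y hx hy
    simp only [Set.mem_ofPred_eq] at hx hy ⊢
    rw [mul_add]; exact I.add_mem hx hy
  zero_mem' := by simp
  smul_mem' := by
    intro c x hx
    simp only [Set.mem_ofPred_eq, smul_eq_mul] at hx ⊢
    have : ω * (c * x) = c * (ω * x) := by ring
    rw [this]; exact I.mul_mem_left _ hx

omit [Field K] [Algebra K A] in
lemma mem_colonI (I : Ideal A) (ω x : A) : x ∈ colonI I ω ↔ ω * x ∈ I := Iff.rfl

omit [DecidableEq ι] in
lemma prod_congr_mod (J : Ideal A) (C : Finset ι) (f g : ι → A)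
    (h : ∀ i ∈ C, f i - g i ∈ J) : ∏ i ∈ C, f i - ∏ i ∈ C, g i ∈ J := by
  rw [← Ideal.Quotient.eq_zero_iff_mem, map_sub, map_prod, map_prod, sub_eq_zero]
  apply Finset.prod_congr rfl
  intro i hi
  rw [Ideal.Quotient.eq]
  exact h i hi

theorem step_abs [FiniteDimensional K V] {p : ℕ} [hp : Fact p.Prime] [CharP K p]
    (lin : V →ₗ[K] A) (D : Dual K V → Derivation K A A)
    (hD : ∀ u v, D u (lin v) = algebraMap K A (u v)) (I : Ideal A)
    (hI1 : ∀ v, lin v ^ p ∈ I) (hI2 : ∀ u x, x ∈ I → D u x ∈ I)
    (a : ι → V) (M : Finset ι) (hcap : ∀ S : Submodule K V, cnt a M S ≤ p * finrank K S)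
    (P Q : Submodule K V) (hPQ : P ≤ Q) (hP : cnt a M P = p * finrank K P)
    (hQ : cnt a M Q = p * finrank K Q)
    (hcond : ∀ S : Submodule K V, P ≤ S → S < Q → ∀ s : ℕ, 2 ≤ s →
      s ≤ p * (finrank K Q - finrank K S) → finrank K S + s + cnt a M P ≤ cnt a M S + finrank K P →
      p ∣ (cnt a M S - cnt a M P - s) → ∀ H : Submodule K V, P ≤ H → H < S →
        cnt a M H + finrank K P < finrank K H + s + cnt a M P)
    (C : Finset ι) (hC : ∀ i ∈ C, a i ∈ P) (hCc : C.card = (p - 1) * finrank K P)
    (hω : pr lin a C ∉ I) :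
    ∃ C' ⊆ M, (∀ i ∈ C', a i ∈ Q ∧ a i ∉ P) ∧ C'.card = (p - 1) * (finrank K Q - finrank K P) ∧
      pr lin a C * pr lin a C' ∉ I := by
  classical
  set P' : Submodule K Q := P.comap Q.subtype with hP'
  obtain ⟨σ, hσ⟩ := LinearMap.exists_rightInverse_of_surjective P'.mkQ (Submodule.range_mkQ P')
  have hσ' : ∀ x, P'.mkQ (σ x) = x := fun x => LinearMap.congr_fun hσ x
  have hext : ∀ u : Dual K (Q ⧸ P'), ∃ w : Dual K V, ∀ x : Q, w x = u (P'.mkQ x) := by
    intro u
    obtain ⟨w, hw⟩ := LinearMap.exists_extend (u.comp P'.mkQ)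
    exact ⟨w, fun x => LinearMap.congr_fun hw x⟩
  choose w hw using hext
  have hwP : ∀ u, ∀ x ∈ P, w u x = 0 := by
    intro u x hx
    have h1 := hw u ⟨x, hPQ hx⟩
    have h2 : P'.mkQ ⟨x, hPQ hx⟩ = 0 := by
      rw [Submodule.mkQ_apply, Submodule.Quotient.mk_eq_zero]
      exact hx
    rw [h2, map_zero] at h1
    exact h1
  -- the data over the quotient
  let lin' : (Q ⧸ P') →ₗ[K] A := lin ∘ₗ Q.subtype ∘ₗ σ
  let D' : Dual K (Q ⧸ P') → Derivation K A A := fun u => D (w u)
  let I' : Ideal A := colonI I (pr lin a C)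
  let a' : ι → (Q ⧸ P') := fun i => if h : a i ∈ Q then P'.mkQ ⟨a i, h⟩ else 0
  have ha' : ∀ i (h : a i ∈ Q), a' i = P'.mkQ ⟨a i, h⟩ := fun i h => by simp [a', h]
  let M' : Finset ι := M.filter (fun i => a i ∈ Q ∧ a i ∉ P)
  have hM'Q : ∀ i ∈ M', a i ∈ Q := fun i hi => (Finset.mem_filter.1 hi).2.1
  -- pulling back subspaces
  let hat : Submodule K (Q ⧸ P') → Submodule K V := fun S => (S.comap P'.mkQ).map Q.subtype
  have hhat_mem : ∀ (S : Submodule K (Q ⧸ P')) (x : V) (hx : x ∈ Q),
      x ∈ hat S ↔ P'.mkQ ⟨x, hx⟩ ∈ S := by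
    intro S x hx
    simp only [hat, Submodule.mem_map, Submodule.mem_comap]
    constructor
    · rintro ⟨y, hy, rfl⟩; exact hy
    · intro h; exact ⟨⟨x, hx⟩, h, rfl⟩
  have hhatQ : ∀ S, hat S ≤ Q := by
    intro S x hx
    obtain ⟨y, _, rfl⟩ := hx
    exact y.2
  have hPhat : ∀ S, P ≤ hat S := by
    intro S x hx
    rw [hhat_mem S x (hPQ hx)]
    have : P'.mkQ ⟨x, hPQ hx⟩ = 0 := by
      rw [Submodule.mkQ_apply, Submodule.Quotient.mk_eq_zero]
      exact hx
    rw [this]; exact Submodule.zero_mem _
  have hhat_mono : ∀ S S', S < S' → hat S < hat S' := by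
    intro S S' h
    apply lt_of_le_of_ne
    · exact Submodule.map_mono (Submodule.comap_mono h.le)
    · intro heq
      apply h.ne
      apply le_antisymm h.le
      intro x hx
      obtain ⟨y, rfl⟩ := P'.mkQ_surjective x
      have h1 : (y : V) ∈ hat S' := (hhat_mem S' y y.2).2 hx
      rw [← heq] at h1
      exact (hhat_mem S y y.2).1 h1
  have hhat_top : hat ⊤ = Q := by
    simp [hat]
  have hrankP' : finrank K P' = finrank K P := by
    rw [hP']
    exact (Submodule.comapSubtypeEquivOfLe hPQ).finrank_eq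
  have hrank : ∀ S, finrank K (hat S) = finrank K S + finrank K P := by
    intro S
    have h1 : finrank K (hat S) = finrank K (S.comap P'.mkQ) := by
      exact Submodule.finrank_map_subtype_eq _ _
    rw [h1, ← hrankP']
    have h2 := LinearMap.finrank_range_add_finrank_ker ((P'.mkQ).domRestrict (S.comap P'.mkQ))
    have h3 : LinearMap.range ((P'.mkQ).domRestrict (S.comap P'.mkQ)) = S := by
      rw [LinearMap.range_domRestrict, Submodule.map_comap_eq, Submodule.range_mkQ, top_inf_eq]
    have h4 : finrank K (LinearMap.ker ((P'.mkQ).domRestrict (S.comap P'.mkQ))) =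
        finrank K P' := by
      rw [LinearMap.ker_domRestrict]
      have h5 : P' ≤ S.comap P'.mkQ := by
        intro x hx
        rw [Submodule.mem_comap]
        have : P'.mkQ x = 0 := by
          rw [Submodule.mkQ_apply, Submodule.Quotient.mk_eq_zero]; exact hx
        rw [this]; exact Submodule.zero_mem _
      rw [Submodule.ker_mkQ]
      exact (Submodule.comapSubtypeEquivOfLe h5).finrank_eq
    rw [h3, h4] at h2
    exact h2.symm
  have hcnt : ∀ S, cnt a' M' S + cnt a M P = cnt a M (hat S) := by
    intro S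
    unfold cnt
    rw [← Finset.card_union_of_disjoint]
    · congr 1
      ext i
      rw [Finset.mem_union, Finset.mem_filter, Finset.mem_filter, Finset.mem_filter,
        Finset.mem_filter]
      constructor
      · rintro (⟨⟨h1, h2, h3⟩, h4⟩ | ⟨h1, h2⟩)
        · refine ⟨h1, ?_⟩
          rw [hhat_mem S _ h2, ← ha' i h2]; exact h4
        · exact ⟨h1, hPhat S h2⟩
      · rintro ⟨h1, h2⟩
        by_cases h3 : a i ∈ P
        · right; exact ⟨h1, h3⟩
        · left
          have h4 := hhatQ S h2
          refine ⟨⟨h1, h4, h3⟩, ?_⟩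
          rw [ha' i h4, ← hhat_mem S _ h4]; exact h2
    · rw [Finset.disjoint_left]
      intro i hi hi'
      rw [Finset.mem_filter] at hi hi'
      exact (Finset.mem_filter.1 hi.1).2.2 hi'.2
  have hrankQ : finrank K (Q ⧸ P') + finrank K P = finrank K Q := by
    rw [← hrankP']; exact Submodule.finrank_quotient_add_finrank P'
  have hM'c : M'.card = p * finrank K (Q ⧸ P') := by
    have h1 := hcnt ⊤
    rw [hhat_top, hQ, hP, ← hrankQ, mul_add] at h1
    have h2 : cnt a' M' (⊤ : Submodule K (Q ⧸ P')) = M'.card := by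
      unfold cnt
      congr 1
      exact Finset.filter_true_of_mem (fun i _ => Submodule.mem_top)
    rw [h2] at h1
    omega
  have hDω : ∀ u, D' u (pr lin a C) = 0 := by
    intro u
    show D (w u) (pr lin a C) = 0
    rw [der_pr lin a (D (w u)) (w u) (hD (w u))]
    apply Finset.sum_eq_zero
    intro i hi
    rw [hwP u _ (hC i hi), zero_smul]
  obtain ⟨C', hC'M, hC'c, hC'n⟩ := main_abs (p := p) lin' D'
    (fun u x => by
      show D (w u) (lin ((σ x : Q) : V)) = _
      rw [hD, hw u (σ x), hσ'])
    I'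
    (fun x => by
      show pr lin a C * _ ∈ I
      exact I.mul_mem_left _ (hI1 _))
    (fun u x hx => by
      show pr lin a C * _ ∈ I
      have h1 : pr lin a C * x ∈ I := hx
      have h2 := hI2 (w u) _ h1
      rw [Derivation.leibniz] at h2
      have h3 : D (w u) (pr lin a C) = 0 := hDω u
      rw [h3, smul_zero, add_zero, smul_eq_mul] at h2
      exact h2)
    (fun h => by
      have h1 : pr lin a C * 1 ∈ I := h
      rw [mul_one] at h1
      exact hω h1)
    a' M' hM'c
    (fun S => by
      have h1 := hcnt S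
      have h2 := hcap (hat S)
      rw [← h1, hP, hrank, mul_add] at h2
      omega)
    (fun S hS s hs hsle h1 h2 H hH => by
      have h3 := hcnt S
      have h4 := hcnt H
      have hsle' : s ≤ p * (finrank K Q - finrank K (hat S)) := by
        rw [hrank S]
        have : finrank K Q - (finrank K S + finrank K P) =
          finrank K (Q ⧸ P') - finrank K S := by omega
        rw [this]; exact hsle
      have h5 := hcond (hat S) (hPhat S) (by
          have := hhat_mono S ⊤ (lt_top_iff_ne_top.2 hS)
          rwa [hhat_top] at this) s hs hsle' (by rw [hrank S]; omega)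
        (by
          have : cnt a M (hat S) - cnt a M P - s = cnt a' M' S - s := by omega
          rw [this]; exact h2) (hat H) (hPhat H) (hhat_mono H S hH)
      rw [hrank H] at h5
      omega)
  refine ⟨C', hC'M.trans (Finset.filter_subset _ _), ?_, ?_, ?_⟩
  · intro i hi
    exact (Finset.mem_filter.1 (hC'M hi)).2
  · rw [hC'c]
    congr 1
    omega
  · intro hcon
    apply hC'n
    have h1 : pr lin a C' ∈ I' := hcon
    have h2 : pr lin' a' C' - pr lin a C' ∈ I' := by
      unfold pr
      apply prod_congr_mod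
      intro i hi
      have hiQ := hM'Q i (hC'M hi)
      have h3 : lin' (a' i) - lin (a i) = lin (((σ (a' i) : Q) : V) - a i) := by
        rw [map_sub]; rfl
      rw [h3]
      have h4 : ((σ (a' i) : Q) : V) - a i ∈ P := by
        have h5 : σ (a' i) - ⟨a i, hiQ⟩ ∈ P' := by
          rw [← Submodule.Quotient.mk_eq_zero, ← Submodule.mkQ_apply, map_sub, hσ',
            ha' i hiQ, sub_self]
        exact h5
      show pr lin a C * _ ∈ I
      rw [mul_comm]
      exact top_mul hp.out.pos lin I hI1 a P C hC hCc h4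
    have h3 := I'.add_mem h2 h1
    simpa using h3

end Pool.Agent.AT75
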