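import Mathlib

set_option autoImplicit false

namespace Pool.Agent.AT75

open Finset Module

variable {ι K V A L : Type*} [DecidableEq ι] [Field K] [AddCommGroup V] [Module K V]
  [CommRing A] [Algebra K A] [AddCommGroup L] [Module K L]

open Classical in
/-- number of indices of `Y` whose vector lies in `U` -/
noncomputable def cnt (a : ι → V) (Y : Finset ι) (U : Submodule K V) : ℕ :=
  (Y.filter (fun i => a i ∈ U)).card

/-- the product of the linear forms with index in `N` -/
noncomputable def pr (lin : V →ₗ[K] A) (a : ι → V) (N : Finset ι) : A := ∏ j ∈ N, lin (a j)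

omit [DecidableEq ι] in
lemma cnt_mono (a : ι → V) (Y : Finset ι) {U U' : Submodule K V} (h : U ≤ U') :
    cnt a Y U ≤ cnt a Y U' := by
  classical
  unfold cnt
  apply Finset.card_le_card
  intro i hi
  simp only [Finset.mem_filter] at hi ⊢
  exact ⟨hi.1, h hi.2⟩

omit [DecidableEq ι] in
/-- dual functionals of an independent family -/
lemma exists_dual [DecidableEq ι] (a : ι → V) (b : Finset ι)
    (hb : LinearIndepOn K a (b : Set ι)) :
    ∃ u : ι → Dual K V, (∀ i ∈ b, ∀ j, u j (a i) = if i = j then 1 else 0) ∧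
      ∀ v ∈ Submodule.span K (a '' (b : Set ι)), v = ∑ j ∈ b, u j v • a j := by
  classical
  have hli : LinearIndependent K (fun i : (b : Set ι) => a i) := hb
  have hinj : Function.Injective (Finsupp.linearCombination K (fun i : (b : Set ι) => a i)) := hli
  obtain ⟨Lf, hL⟩ := LinearMap.exists_leftInverse_of_injective _ (LinearMap.ker_eq_bot.mpr hinj)
  have hL' : ∀ c, Lf (Finsupp.linearCombination K (fun i : (b : Set ι) => a i) c) = c :=
    fun c => LinearMap.congr_fun hL c
  refine ⟨fun j => if hj : j ∈ b then (Finsupp.lapply (⟨j, hj⟩ : (b : Set ι))).comp Lf else 0,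
    ?_, ?_⟩
  · intro i hi j
    have h1 : Lf (a i) = Finsupp.single (⟨i, hi⟩ : (b : Set ι)) 1 := by
      have := hL' (Finsupp.single (⟨i, hi⟩ : (b : Set ι)) 1)
      simpa using this
    by_cases hj : j ∈ b
    · simp only [hj, dif_pos, LinearMap.comp_apply, h1, Finsupp.lapply_apply,
        Finsupp.single_apply, Subtype.mk.injEq]
    · have hne : i ≠ j := fun h => hj (h ▸ hi)
      simp [hj, hne]
  · intro v hv
    have hv' : v ∈ Submodule.span K (Set.range (fun i : (b : Set ι) => a i)) := by
      have : Set.range (fun i : (b : Set ι) => a i) = a '' (b : Set ι) := by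
        ext x; simp
      rw [this]; exact hv
    obtain ⟨c, rfl⟩ := (Finsupp.mem_span_range_iff_exists_finsupp).1 hv'
    have hc : Lf (c.sum fun i r => r • a i) = c := hL' c
    have h2 : (c.sum fun (i : (b : Set ι)) r => r • a i) = ∑ j : (b : Set ι), c j • a j := by
      rw [Finsupp.sum_fintype]
      intro i; simp
    conv_lhs => rw [h2]
    rw [← Finset.sum_coe_sort b]
    apply Finset.sum_congr rfl
    intro j _
    have hj : (j : ι) ∈ b := j.2
    simp only [hj, dif_pos, LinearMap.comp_apply, Finsupp.lapply_apply]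
    rw [hc]

/-- derivations of a product -/
lemma der_pr (lin : V →ₗ[K] A) (a : ι → V) (δ : Derivation K A A) (u : V → K)
    (hδ : ∀ v, δ (lin v) = algebraMap K A (u v)) (N : Finset ι) :
    δ (pr lin a N) = ∑ i ∈ N, u (a i) • pr lin a (N.erase i) := by
  induction N using Finset.induction_on with
  | empty => simp [pr]
  | insert j N hj ih =>
    have h1 : pr lin a (insert j N) = lin (a j) * pr lin a N := by
      unfold pr; rw [Finset.prod_insert hj]
    rw [h1, Derivation.leibniz, ih, hδ, Finset.sum_insert hj, Finset.erase_insert hj]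
    have h2 : ∀ i ∈ N, u (a i) • pr lin a ((insert j N).erase i) =
        lin (a j) • (u (a i) • pr lin a (N.erase i)) := by
      intro i hi
      have hij : i ≠ j := fun h => hj (h ▸ hi)
      rw [Finset.erase_insert_of_ne hij.symm]
      have hj' : j ∉ N.erase i := fun h => hj (Finset.mem_of_mem_erase h)
      unfold pr
      rw [Finset.prod_insert hj', smul_eq_mul, mul_smul_comm]
    rw [Finset.sum_congr rfl h2, ← Finset.smul_sum, smul_eq_mul, smul_eq_mul, add_comm]
    congr 1
    rw [mul_comm, ← Algebra.smul_def]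

/-- products of `k` forms of `Y` whose complement still spans `W` -/
def PrS (lin : V →ₗ[K] A) (a : ι → V) (Y : Finset ι) (W : Submodule K V) (k : ℕ) : Set A :=
  {x | ∃ N ⊆ Y, N.card = k ∧ Submodule.span K (a '' ((Y \ N : Finset ι) : Set ι)) = W ∧
    x = pr lin a N}

lemma step (lin : V →ₗ[K] A) (a : ι → V) (Y : Finset ι) (W : Submodule K V) (k : ℕ)
    {j : ι} (hj : j ∈ Y) {m : A} (hm : m ∈ Submodule.span K (PrS lin a (Y.erase j) W k)) :
    lin (a j) * m ∈ Submodule.span K (PrS lin a Y W (k + 1)) := by
  induction hm using Submodule.span_induction with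
  | mem x hx =>
    obtain ⟨N, hN, hc, hs, rfl⟩ := hx
    have hjN : j ∉ N := fun h => Finset.notMem_erase j Y (hN h)
    apply Submodule.subset_span
    refine ⟨insert j N, ?_, ?_, ?_, ?_⟩
    · intro i hi
      rcases Finset.mem_insert.1 hi with rfl | hi
      · exact hj
      · exact Finset.mem_of_mem_erase (hN hi)
    · rw [Finset.card_insert_of_notMem hjN, hc]
    · have : Y \ insert j N = Y.erase j \ N := by
        ext i; simp only [Finset.mem_sdiff, Finset.mem_insert, Finset.mem_erase]; tauto
      rw [this]; exact hs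
    · unfold pr; rw [Finset.prod_insert hjN]
  | zero => simp
  | add x y _ _ hx hy => rw [mul_add]; exact Submodule.add_mem _ hx hy
  | smul c x _ hx => rw [mul_smul_comm]; exact Submodule.smul_mem _ _ hx

/-- monomials in the forms of a family -/
noncomputable def mon {d : ℕ} (lin : V →ₗ[K] A) (v : Fin d → V) (α : Fin d → ℕ) : A :=
  ∏ i, lin (v i) ^ α i

lemma mon_add_single {d : ℕ} (lin : V →ₗ[K] A) (v : Fin d → V) (α : Fin d → ℕ) (i : Fin d) :
    mon lin v (α + Pi.single i 1) = lin (v i) * mon lin v α := by
  unfold mon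
  simp only [Pi.add_apply, pow_add, Finset.prod_mul_distrib]
  rw [mul_comm]
  congr 1
  rw [Finset.prod_eq_single i]
  · simp
  · intro j _ hj; simp [hj]
  · simp

lemma exists_eq_add_single {d : ℕ} (α : Fin d → ℕ) {k : ℕ} (h : ∑ i, α i = k + 1) :
    ∃ (α' : Fin d → ℕ) (i : Fin d), α = α' + Pi.single i 1 ∧ ∑ i, α' i = k := by
  have : ∃ i, α i ≠ 0 := by
    by_contra hcon
    push Not at hcon
    simp [hcon] at h
  obtain ⟨i, hi⟩ := this
  have h1 : α = (Function.update α i (α i - 1)) + Pi.single i 1 := by
    funext j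
    by_cases hj : j = i
    · subst hj; simp; omega
    · simp [hj]
  refine ⟨Function.update α i (α i - 1), i, h1, ?_⟩
  have h2 : ∑ j, α j = ∑ j, (Function.update α i (α i - 1)) j + 1 := by
    conv_lhs => rw [h1]
    simp only [Pi.add_apply, Finset.sum_add_distrib]
    simp
  omega

/-- Span lemma -/
lemma span_mon {d : ℕ} (lin : V →ₗ[K] A) (a : ι → V) (W : Submodule K V) (v : Fin d → V)
    (hv : ∀ i, v i ∈ W) (k : ℕ) :
    ∀ (Y : Finset ι), Submodule.span K (a '' (Y : Set ι)) = W →
      (∀ H : Submodule K V, H < W → cnt a Y H + (k + 1) ≤ Y.card) →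
      ∀ α : Fin d → ℕ, ∑ i, α i = k → mon lin v α ∈ Submodule.span K (PrS lin a Y W k) := by
  classical
  induction k with
  | zero =>
    intro Y hY _ α hα
    have h0 : ∀ i, α i = 0 := by
      intro i
      exact (Finset.sum_eq_zero_iff.1 hα) i (Finset.mem_univ i)
    apply Submodule.subset_span
    refine ⟨∅, Finset.empty_subset _, rfl, by simpa using hY, ?_⟩
    simp [mon, pr, h0]
  | succ k ih =>
    intro Y hY hH α hα
    obtain ⟨α', i, rfl, hα'⟩ := exists_eq_add_single α hα
    rw [mon_add_single]
    have hvi : v i ∈ Submodule.span K (a '' (Y : Set ι)) := by rw [hY]; exact hv i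
    have key : ∀ x ∈ Submodule.span K (a '' (Y : Set ι)),
        lin x * mon lin v α' ∈ Submodule.span K (PrS lin a Y W (k + 1)) := by
      intro x hx
      induction hx using Submodule.span_induction with
      | mem x hx =>
        obtain ⟨j, hj, rfl⟩ := hx
        have hj' : j ∈ Y := hj
        apply step lin a Y W k hj'
        have hsp : Submodule.span K (a '' ((Y.erase j : Finset ι) : Set ι)) = W := by
          have hle : Submodule.span K (a '' ((Y.erase j : Finset ι) : Set ι)) ≤ W := by
            rw [← hY]; apply Submodule.span_mono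
            apply Set.image_mono; exact_mod_cast Finset.erase_subset j Y
          by_contra hne
          have h1 := hH _ (lt_of_le_of_ne hle hne)
          have h2 : (Y.erase j).card ≤
              cnt a Y (Submodule.span K (a '' ((Y.erase j : Finset ι) : Set ι))) := by
            unfold cnt
            apply Finset.card_le_card
            intro l hl
            simp only [Finset.mem_filter]
            refine ⟨Finset.mem_of_mem_erase hl, Submodule.subset_span ⟨l, by exact_mod_cast hl, rfl⟩⟩
          rw [Finset.card_erase_of_mem hj'] at h2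
          omega
        refine ih (Y.erase j) hsp ?_ α' hα'
        intro H hHW
        have h1 := hH H hHW
        rw [Finset.card_erase_of_mem hj']
        have h2 : cnt a (Y.erase j) H ≤ cnt a Y H := by
          unfold cnt
          apply Finset.card_le_card
          apply Finset.filter_subset_filter
          exact Finset.erase_subset j Y
        have h3 : 1 ≤ Y.card := Finset.card_pos.2 ⟨j, hj'⟩
        omega
      | zero => simp
      | add x y _ _ hx hy => rw [map_add, add_mul]; exact Submodule.add_mem _ hx hy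
      | smul c x _ hx => rw [map_smul, smul_mul_assoc]; exact Submodule.smul_mem _ _ hx
    exact key _ hvi

lemma der_mon {d : ℕ} (lin : V →ₗ[K] A) (v : Fin d → V) (δ : Derivation K A A) (i : Fin d)
    (h1 : δ (lin (v i)) = 1) (h0 : ∀ j, j ≠ i → δ (lin (v j)) = 0) (α : Fin d → ℕ) :
    δ (mon lin v (α + Pi.single i 1)) = ((α i : K) + 1) • mon lin v α := by
  have hsplit : ∀ β : Fin d → ℕ, mon lin v β =
      lin (v i) ^ β i * ∏ j ∈ Finset.univ.erase i, lin (v j) ^ β j := by
    intro β
    exact (Finset.mul_prod_erase _ (fun j => lin (v j) ^ β j) (Finset.mem_univ i)).symm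
  have hrest : ∀ s : Finset (Fin d), (∀ j ∈ s, j ≠ i) →
      δ (∏ j ∈ s, lin (v j) ^ α j) = 0 := by
    intro s
    induction s using Finset.induction_on with
    | empty => intro _; simp
    | insert j s hj ih =>
      intro hs
      rw [Finset.prod_insert hj, Derivation.leibniz,
        ih (fun l hl => hs l (Finset.mem_insert_of_mem hl)), Derivation.leibniz_pow,
        h0 j (hs j (Finset.mem_insert_self _ _))]
      simp
  rw [hsplit, hsplit α]
  have h2 : ∏ j ∈ Finset.univ.erase i, lin (v j) ^ (α + Pi.single i 1 : Fin d → ℕ) j =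
      ∏ j ∈ Finset.univ.erase i, lin (v j) ^ α j := by
    apply Finset.prod_congr rfl
    intro j hj
    have hj' : j ≠ i := Finset.ne_of_mem_erase hj
    simp [hj']
  have h3 : (α + Pi.single i 1 : Fin d → ℕ) i = α i + 1 := by simp
  rw [h2, h3, Derivation.leibniz, hrest _ (fun j hj => Finset.ne_of_mem_erase hj),
    Derivation.leibniz_pow, h1]
  simp only [smul_eq_mul, mul_zero, zero_add, Nat.add_sub_cancel, mul_one, nsmul_eq_mul]
  rw [Algebra.smul_def ((α i : K) + 1)]
  simp only [map_add, map_natCast, map_one, Nat.cast_add, Nat.cast_one]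
  ring

lemma pr_mem_mon {d : ℕ} (lin : V →ₗ[K] A) (a : ι → V) (v : Fin d → V) (N : Finset ι)
    (hN : ∀ j ∈ N, a j ∈ Submodule.span K (Set.range v)) :
    pr lin a N ∈ Submodule.span K {x : A | ∃ α : Fin d → ℕ, ∑ i, α i = N.card ∧
      x = mon lin v α} := by
  induction N using Finset.induction_on with
  | empty =>
    apply Submodule.subset_span
    exact ⟨fun _ => 0, by simp, by simp [pr, mon]⟩
  | insert j N hj ih =>
    have h1 : pr lin a (insert j N) = lin (a j) * pr lin a N := by
      unfold pr; rw [Finset.prod_insert hj]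
    rw [h1, Finset.card_insert_of_notMem hj]
    have ih' := ih (fun l hl => hN l (Finset.mem_insert_of_mem hl))
    have hv := hN j (Finset.mem_insert_self _ _)
    generalize pr lin a N = m at ih'
    generalize a j = x at hv
    induction hv using Submodule.span_induction with
    | mem x hx =>
      obtain ⟨i, rfl⟩ := hx
      induction ih' using Submodule.span_induction with
      | mem y hy =>
        obtain ⟨α, hα, rfl⟩ := hy
        apply Submodule.subset_span
        refine ⟨α + Pi.single i 1, ?_, (mon_add_single lin v α i).symm⟩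
        simp only [Pi.add_apply, Finset.sum_add_distrib, hα]
        simp
      | zero => simp
      | add y z _ _ hy hz => rw [mul_add]; exact Submodule.add_mem _ hy hz
      | smul c y _ hy => rw [mul_smul_comm]; exact Submodule.smul_mem _ _ hy
    | zero => simp
    | add x y _ _ hx hy => rw [map_add, add_mul]; exact Submodule.add_mem _ hx hy
    | smul c x _ hx => rw [map_smul, smul_mul_assoc]; exact Submodule.smul_mem _ _ hx

lemma map_eq_zero_of_span (g : A →ₗ[K] L) (S : Set A) (h : ∀ x ∈ S, g x = 0) {x : A}
    (hx : x ∈ Submodule.span K S) : g x = 0 := by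
  have : Submodule.span K S ≤ LinearMap.ker g := Submodule.span_le.2 (fun x hx => h x hx)
  exact this hx

/-- the rich case -/
lemma rich [FiniteDimensional K V] {p : ℕ} [hp : Fact p.Prime] [CharP K p]
    (lin : V →ₗ[K] A) (D : Dual K V → Derivation K A A)
    (hD : ∀ u v, D u (lin v) = algebraMap K A (u v)) (a : ι → V) (Y : Finset ι)
    (W : Submodule K V) (hY : Submodule.span K (a '' (Y : Set ι)) = W) (r : ℕ)
    (hrich : ∀ H : Submodule K V, H < W → cnt a Y H + (r + 1 + 1) ≤ Y.card)
    (hr : r < (p - 1) * finrank K W) (g : A →ₗ[K] L)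
    (hgp : ∀ v x, g (lin v ^ p * x) = 0)
    (hgD : ∀ u, ∀ N ⊆ Y, N.card = r + 1 →
      Submodule.span K (a '' ((Y \ N : Finset ι) : Set ι)) = W → g (D u (pr lin a N)) = 0)
    (N : Finset ι) (hN : N ⊆ Y) (hNc : N.card = r) : g (pr lin a N) = 0 := by
  classical
  have hp' : p.Prime := hp.out
  set b := Module.finBasis K W with hb
  set v : Fin (finrank K W) → V := fun i => (b i : V) with hvdef
  have hvW : ∀ i, v i ∈ W := fun i => (b i).2
  have hli : LinearIndependent K v := by
    have := b.linearIndependent.map' W.subtype (Submodule.ker_subtype W)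
    exact this
  have hspan : Submodule.span K (Set.range v) = W := by
    have h1 : Set.range v = W.subtype '' (Set.range b) := by
      ext x; simp [hvdef]
    rw [h1, ← Submodule.map_span, b.span_eq, Submodule.map_top, Submodule.range_subtype]
  obtain ⟨u, hu, -⟩ := exists_dual (K := K) v Finset.univ (by
    rw [Finset.coe_univ]; exact linearIndepOn_univ_iff.2 hli)
  have hAW : ∀ j ∈ Y, a j ∈ W := by
    intro j hj; rw [← hY]; exact Submodule.subset_span ⟨j, by exact_mod_cast hj, rfl⟩
  have s1 : ∀ α : Fin (finrank K W) → ℕ, ∑ i, α i = r + 1 → ∀ w, g (D w (mon lin v α)) = 0 := by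
    intro α hα w
    have hm := span_mon lin a W v hvW (r + 1) Y hY hrich α hα
    have := map_eq_zero_of_span (g.comp (D w).toLinearMap) (PrS lin a Y W (r + 1)) ?_ hm
    · simpa using this
    · rintro x ⟨N', hN', hc, hs, rfl⟩
      simpa using hgD w N' hN' hc hs
  have s2 : ∀ α : Fin (finrank K W) → ℕ, ∑ i, α i = r → g (mon lin v α) = 0 := by
    intro α hα
    by_cases hbig : ∃ i, p ≤ α i
    · obtain ⟨i, hi⟩ := hbig
      have : mon lin v α = lin (v i) ^ p *
          (lin (v i) ^ (α i - p) * ∏ j ∈ Finset.univ.erase i, lin (v j) ^ α j) := by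
        rw [← mul_assoc, ← pow_add, Nat.add_sub_cancel' hi]
        exact (Finset.mul_prod_erase _ (fun j => lin (v j) ^ α j) (Finset.mem_univ i)).symm
      rw [this]; exact hgp _ _
    · push Not at hbig
      have : ∃ i, α i < p - 1 := by
        by_contra hcon
        push Not at hcon
        have h1 : ∑ i : Fin (finrank K W), (p - 1) ≤ ∑ i, α i :=
          Finset.sum_le_sum (fun i _ => hcon i)
        simp only [Finset.sum_const, Finset.card_univ, Fintype.card_fin, smul_eq_mul] at h1
        rw [hα, mul_comm] at h1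
        omega
      obtain ⟨i, hi⟩ := this
      have hd := der_mon lin v (D (u i)) i (by rw [hD, hu i (Finset.mem_univ i)]; simp)
        (fun j hj => by rw [hD, hu j (Finset.mem_univ j)]; simp [hj]) α
      have h1 := s1 (α + Pi.single i 1) (by
        simp only [Pi.add_apply, Finset.sum_add_distrib, hα]; simp) (u i)
      rw [hd, map_smul] at h1
      have h2 : ((α i : K) + 1) ≠ 0 := by
        intro h
        have h3 : ((α i + 1 : ℕ) : K) = 0 := by push_cast; exact h
        rw [CharP.cast_eq_zero_iff K p] at h3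
        have := Nat.le_of_dvd (by omega) h3
        omega
      exact (smul_eq_zero.1 h1).resolve_left h2
  have s3 := pr_mem_mon lin a v N (fun j hj => by rw [hspan]; exact hAW j (hN hj))
  rw [hNc] at s3
  exact map_eq_zero_of_span g _ (by rintro x ⟨α, hα, rfl⟩; exact s2 α hα) s3

omit [DecidableEq ι] in
lemma finrank_indep (a : ι → V) (b : Finset ι) (hb : LinearIndepOn K a (b : Set ι)) :
    finrank K (Submodule.span K (a '' (b : Set ι))) = b.card := by
  have h1 : Set.range (fun i : b => a i) = a '' (b : Set ι) := by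
    ext x; simp
  have hb' : LinearIndependent K (fun i : b => a i) := hb
  have := finrank_span_eq_card hb'
  rw [h1] at this
  rw [this]; simp

lemma pr_insert (lin : V →ₗ[K] A) (a : ι → V) {j : ι} {N : Finset ι} (h : j ∉ N) :
    pr lin a (insert j N) = lin (a j) * pr lin a N := by
  unfold pr; rw [Finset.prod_insert h]

lemma pr_union (lin : V →ₗ[K] A) (a : ι → V) {M N : Finset ι} (h : Disjoint M N) :
    pr lin a (M ∪ N) = pr lin a M * pr lin a N := by
  unfold pr; rw [Finset.prod_union h]

lemma lin_mul_pr_erase (lin : V →ₗ[K] A) (a : ι → V) {j : ι} {N : Finset ι} (h : j ∈ N) :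
    lin (a j) * pr lin a (N.erase j) = pr lin a N := by
  unfold pr; rw [Finset.mul_prod_erase N (fun i => lin (a i)) h]

/-- the descent to a hyperplane `H` of `W`: `Z` is the set of indices of `Y` outside `H` -/
lemma descent (lin : V →ₗ[K] A) (D : Dual K V → Derivation K A A)
    (hD : ∀ u v, D u (lin v) = algebraMap K A (u v)) (a : ι → V)
    (N'' Z : Finset ι) (hdis : Disjoint N'' Z) (φ : Dual K V) (hφ : ∀ i ∈ N'', φ (a i) = 0)
    (g : A →ₗ[K] L)
    (hg : ∀ u, ∀ z ∈ Z, g (D u (pr lin a (N'' ∪ Z.erase z))) = 0) (u : Dual K V) :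
    ∑ z ∈ Z, φ (a z) • g (D u (pr lin a N'') * pr lin a (Z.erase z)) = 0 := by
  have hdis' : ∀ z, Disjoint N'' (Z.erase z) := fun z =>
    Finset.disjoint_of_subset_right (Finset.erase_subset z Z) hdis
  have h1 : ∀ u, ∀ z ∈ Z, g (D u (pr lin a N'') * pr lin a (Z.erase z)) =
      - ∑ y ∈ Z.erase z, u (a y) • g (pr lin a N'' * pr lin a ((Z.erase z).erase y)) := by
    intro u z hz
    have h2 := hg u z hz
    rw [pr_union lin a (hdis' z), Derivation.leibniz, map_add,
      der_pr lin a (D u) u (hD u) (Z.erase z)] at h2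
    simp only [smul_eq_mul] at h2
    rw [Finset.mul_sum, map_sum] at h2
    rw [eq_neg_iff_add_eq_zero, add_comm]
    rw [mul_comm (D u (pr lin a N''))]
    rw [← h2]
    congr 1
    apply Finset.sum_congr rfl
    intro y _
    rw [mul_smul_comm, map_smul]
  have h3 : ∀ y ∈ Z, ∑ z ∈ Z.erase y, φ (a z) •
      g (pr lin a N'' * pr lin a ((Z.erase y).erase z)) = 0 := by
    intro y hy
    have h4 := h1 φ y hy
    have h5 : D φ (pr lin a N'') = 0 := by
      rw [der_pr lin a (D φ) φ (hD φ)]
      apply Finset.sum_eq_zero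
      intro i hi; rw [hφ i hi, zero_smul]
    rw [h5, zero_mul, map_zero] at h4
    exact (neg_eq_zero.1 h4.symm)
  calc ∑ z ∈ Z, φ (a z) • g (D u (pr lin a N'') * pr lin a (Z.erase z))
      = ∑ z ∈ Z, ∑ y ∈ Z.erase z, - (u (a y) • φ (a z) •
          g (pr lin a N'' * pr lin a ((Z.erase z).erase y))) := by
        apply Finset.sum_congr rfl
        intro z hz
        rw [h1 u z hz, smul_neg, Finset.smul_sum, ← Finset.sum_neg_distrib]
        apply Finset.sum_congr rfl
        intro y _
        rw [smul_comm]
    _ = ∑ y ∈ Z, ∑ z ∈ Z.erase y, - (u (a y) • φ (a z) •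
          g (pr lin a N'' * pr lin a ((Z.erase z).erase y))) := by
        apply Finset.sum_comm'
        intro z y
        simp only [Finset.mem_erase]
        constructor
        · rintro ⟨h1, h2, h3⟩; exact ⟨⟨fun h => h2 h.symm, h1⟩, h3⟩
        · rintro ⟨⟨h1, h2⟩, h3⟩; exact ⟨h2, fun h => h1 h.symm, h3⟩
    _ = 0 := by
        apply Finset.sum_eq_zero
        intro y hy
        rw [Finset.sum_neg_distrib, neg_eq_zero, ← Finset.smul_sum]
        have : ∑ z ∈ Z.erase y, φ (a z) •
            g (pr lin a N'' * pr lin a ((Z.erase z).erase y)) = 0 := by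
          rw [← h3 y hy]
          apply Finset.sum_congr rfl
          intro z _
          rw [Finset.erase_right_comm]
        rw [this, smul_zero]

/-- the value at `N` of the functional of the hyperplane `H` -/
lemma ascent (lin : V →ₗ[K] A) (D : Dual K V → Derivation K A A)
    (hD : ∀ u v, D u (lin v) = algebraMap K A (u v)) (a : ι → V)
    (M Z : Finset ι) (φ : Dual K V) (hφ : ∀ i ∈ M, φ (a i) = 0) (j : ι) (hj : j ∈ Z)
    (hφj : φ (a j) = 1) (g : A →ₗ[K] L) (hdis : Disjoint M Z) :
    g (pr lin a (M ∪ Z.erase j)) + g (lin (a j) * D φ (pr lin a (M ∪ Z.erase j))) =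
      ∑ z ∈ Z, φ (a z) • g (pr lin a M * pr lin a (Z.erase z)) := by
  have hdis' : Disjoint M (Z.erase j) :=
    Finset.disjoint_of_subset_right (Finset.erase_subset j Z) hdis
  have h5 : D φ (pr lin a M) = 0 := by
    rw [der_pr lin a (D φ) φ (hD φ)]
    apply Finset.sum_eq_zero
    intro i hi; rw [hφ i hi, zero_smul]
  rw [pr_union lin a hdis', Derivation.leibniz, h5, smul_zero, add_zero,
    der_pr lin a (D φ) φ (hD φ) (Z.erase j), ← Finset.add_sum_erase Z _ hj, hφj, one_smul]
  congr 1
  simp only [smul_eq_mul]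
  rw [Finset.mul_sum, Finset.mul_sum, map_sum]
  apply Finset.sum_congr rfl
  intro z hz
  rw [← map_smul]
  congr 1
  have hjz : j ∈ Z.erase z := Finset.mem_erase.2 ⟨(Finset.ne_of_mem_erase hz).symm, hj⟩
  rw [Finset.erase_right_comm, ← lin_mul_pr_erase lin a hjz, mul_smul_comm, mul_smul_comm]
  congr 1
  ring

end Pool.Agent.AT75
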