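import Pool.Agent.Helper75_AT.Lev

set_option autoImplicit false

namespace Pool.Agent.AT75

open Finset Module

variable {ι K V A L : Type*} [DecidableEq ι] [Field K] [AddCommGroup V] [Module K V]
  [CommRing A] [Algebra K A] [AddCommGroup L] [Module K L]

theorem lev [FiniteDimensional K V] {p : ℕ} [hp : Fact p.Prime] [CharP K p]
    (lin : V →ₗ[K] A) (D : Dual K V → Derivation K A A)
    (hD : ∀ u v, D u (lin v) = algebraMap K A (u v)) (a : ι → V) (s : ℕ) (hs : 1 ≤ s) :
    ∀ (w : ℕ) (W : Submodule K V), finrank K W = w → ∀ (Y : Finset ι) (r : ℕ),
      Submodule.span K (a '' (Y : Set ι)) = W → Y.card = w + s + r →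
      (∀ U : Submodule K V, U ≤ W → cnt a Y U ≤ p * finrank K U) →
      (∀ U : Submodule K V, U ≤ W → finrank K U + s ≤ cnt a Y U → p ∣ (cnt a Y U - s) →
        ∀ H : Submodule K V, H < U → cnt a Y H < finrank K H + s) →
      ∀ (g : A →ₗ[K] L), (∀ v x, g (lin v ^ p * x) = 0) →
      (∀ u, ∀ N ⊆ Y, N.card = r + 1 →
        Submodule.span K (a '' ((Y \ N : Finset ι) : Set ι)) = W → g (D u (pr lin a N)) = 0) →
      ∀ N ⊆ Y, N.card = r → Submodule.span K (a '' ((Y \ N : Finset ι) : Set ι)) = W →
        g (pr lin a N) = 0 := by
  classical
  intro w
  induction w using Nat.strong_induction_on with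
  | _ w ih =>
  intro W hW Y r hY hcard hcap hcond g hgp hgD N hN hNc hX
  have hp' : p.Prime := hp.out
  have hYW : ∀ j ∈ Y, a j ∈ W := by
    intro j hj; rw [← hY]; exact Submodule.subset_span ⟨j, by exact_mod_cast hj, rfl⟩
  have hcntW : cnt a Y W = Y.card := by
    unfold cnt
    congr 1
    exact Finset.filter_true_of_mem hYW
  by_cases hheavy : ∃ H : Submodule K V, H < W ∧ finrank K H + s ≤ cnt a Y H
  swap
  · -- rich case
    push Not at hheavy
    apply rich (p := p) lin D hD a Y W hY r ?_ ?_ g hgp hgD N hN hNc
    · intro H hH
      have h1 := hheavy H hH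
      have h2 := Submodule.finrank_lt_finrank_of_lt hH
      omega
    · have h1 := hcap W le_rfl
      rw [hcntW, hcard, hW] at h1
      rw [hW]
      have h2 : p * w = (p - 1) * w + w := by
        obtain ⟨q, rfl⟩ : ∃ q, p = q + 1 := ⟨p - 1, by have := hp'.pos; omega⟩
        simp only [Nat.add_sub_cancel]; ring
      omega
  -- the non-divisible case
  have hnd : ¬ p ∣ (w + r) := by
    intro hdvd
    obtain ⟨H, hH, hHc⟩ := hheavy
    have h1 := hcond W le_rfl (by rw [hcntW, hcard, hW]; omega)
      (by rw [hcntW, hcard]; have : w + s + r - s = w + r := by omega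
          rw [this]; exact hdvd) H hH
    omega
  set X := Y \ N with hXdef
  obtain ⟨β', hβ'X, -, hβ'sp, hβ'li⟩ := exists_linearIndepOn_extension (K := K) (v := a)
    (s := ∅) (t := (X : Set ι)) (linearIndepOn_empty K a) (Set.empty_subset _)
  have hfin : β'.Finite := X.finite_toSet.subset hβ'X
  obtain ⟨β, rfl⟩ : ∃ β : Finset ι, (β : Set ι) = β' := ⟨hfin.toFinset, by simp⟩
  have hβX : β ⊆ X := by exact_mod_cast hβ'X
  have hβY : β ⊆ Y := hβX.trans Finset.sdiff_subset
  have hβspan : Submodule.span K (a '' (β : Set ι)) = W := by
    apply le_antisymm
    · rw [← hX]; exact Submodule.span_mono (Set.image_mono hβ'X)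
    · rw [← hX]; exact Submodule.span_le.2 hβ'sp
  obtain ⟨u, hu, huexp⟩ := exists_dual a β hβ'li
  have hβcard : β.card = w := by
    rw [← finrank_indep a β hβ'li, hβspan, hW]
  have hexp : ∀ v ∈ W, v = ∑ j ∈ β, u j v • a j := by
    intro v hv; exact huexp v (by rw [hβspan]; exact hv)
  -- key identity for each `j ∈ β`
  have key : ∀ j ∈ β, g (pr lin a N) + g (lin (a j) * D (u j) (pr lin a N)) = 0 := by
    intro j hj
    have hjX : j ∈ X := hβX hj
    have hjY : j ∈ Y := hβY hj
    have hjN : j ∉ N := (Finset.mem_sdiff.1 hjX).2
    have hujj : u j (a j) = 1 := by rw [hu j hj j]; simp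
    by_cases hsp : Submodule.span K (a '' ((X.erase j : Finset ι) : Set ι)) = W
    · -- `j` is not a coloop of `X`
      have h1 := hgD (u j) (insert j N) (by
          intro i hi
          rcases Finset.mem_insert.1 hi with rfl | hi
          · exact hjY
          · exact hN hi)
        (by rw [Finset.card_insert_of_notMem hjN, hNc]) (by
          have : Y \ insert j N = X.erase j := by
            ext i; simp only [hXdef, Finset.mem_sdiff, Finset.mem_insert, Finset.mem_erase]; tauto
          rw [this]; exact hsp)
      rw [pr_insert lin a hjN, Derivation.leibniz, hD, hujj, map_one, smul_eq_mul, smul_eq_mul,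
        mul_one, map_add] at h1
      rw [add_comm]; exact h1
    · -- `j` is a coloop of `X`
      set H := Submodule.span K (a '' ((X.erase j : Finset ι) : Set ι)) with hHdef
      have hHW : H ≤ W := by
        rw [← hX]; apply Submodule.span_mono; apply Set.image_mono
        exact_mod_cast Finset.erase_subset j X
      have hβH : ∀ l ∈ β, l ≠ j → a l ∈ H := by
        intro l hl hlj
        apply Submodule.subset_span
        exact ⟨l, by exact_mod_cast Finset.mem_erase.2 ⟨hlj, hβX hl⟩, rfl⟩
      have hdecomp : ∀ v ∈ W, v - u j v • a j ∈ H := by
        intro v hv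
        have h1 := hexp v hv
        rw [← Finset.add_sum_erase β _ hj] at h1
        have h2 : v - u j v • a j = ∑ l ∈ β.erase j, u l v • a l :=
          sub_eq_iff_eq_add'.2 h1
        rw [h2]
        apply Submodule.sum_mem
        intro l hl
        exact Submodule.smul_mem _ _ (hβH l (Finset.mem_of_mem_erase hl) (Finset.ne_of_mem_erase hl))
      have hajH : a j ∉ H := by
        intro hmem
        apply hsp
        apply le_antisymm hHW
        intro v hv
        have := Submodule.add_mem _ (hdecomp v hv) (Submodule.smul_mem _ (u j v) hmem)
        simpa using this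
      have hzero : ∀ v ∈ H, u j v = 0 := by
        intro v hv
        have h1 : ∀ i ∈ X.erase j, u j (a i) = 0 := by
          intro i hi
          by_contra hne
          apply hajH
          have hiX : i ∈ X := Finset.mem_of_mem_erase hi
          have hiW : a i ∈ W := hYW i (Finset.sdiff_subset hiX)
          have hiH : a i ∈ H := Submodule.subset_span ⟨i, by exact_mod_cast hi, rfl⟩
          have h2 := Submodule.sub_mem _ hiH (hdecomp _ hiW)
          rw [sub_sub_cancel] at h2
          have h3 := Submodule.smul_mem H (u j (a i))⁻¹ h2
          rwa [smul_smul, inv_mul_cancel₀ hne, one_smul] at h3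
        have h2 : H ≤ LinearMap.ker (u j) := by
          rw [hHdef]
          apply Submodule.span_le.2
          rintro x ⟨i, hi, rfl⟩
          exact h1 i (by exact_mod_cast hi)
        exact h2 hv
      have hmemH : ∀ v ∈ W, u j v = 0 → v ∈ H := by
        intro v hv h0
        have := hdecomp v hv
        rwa [h0, zero_smul, sub_zero] at this
      -- finrank of H
      have hHspan : Submodule.span K (a '' ((β.erase j : Finset ι) : Set ι)) = H := by
        apply le_antisymm
        · apply Submodule.span_le.2
          rintro x ⟨l, hl, rfl⟩
          have hl' : l ∈ β.erase j := by exact_mod_cast hl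
          exact hβH l (Finset.mem_of_mem_erase hl') (Finset.ne_of_mem_erase hl')
        · intro v hv
          have h1 := hexp v (hHW hv)
          rw [h1]
          rw [← Finset.add_sum_erase β _ hj, hzero v hv, zero_smul, zero_add]
          apply Submodule.sum_mem
          intro l hl
          exact Submodule.smul_mem _ _ (Submodule.subset_span ⟨l, by exact_mod_cast hl, rfl⟩)
      have hw1 : 1 ≤ w := by rw [← hβcard]; exact Finset.card_pos.2 ⟨j, hj⟩
      have hHrank : finrank K H = w - 1 := by
        rw [← hHspan, finrank_indep a (β.erase j)
          (hβ'li.mono (by exact_mod_cast Finset.erase_subset j β)),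
          Finset.card_erase_of_mem hj, hβcard]
      -- the sets
      set Z := Y.filter (fun i => u j (a i) ≠ 0) with hZdef
      set YH := Y.filter (fun i => u j (a i) = 0) with hYHdef
      set NH := N.filter (fun i => u j (a i) = 0) with hNHdef
      have hjZ : j ∈ Z := by
        rw [hZdef, Finset.mem_filter]; exact ⟨hjY, by rw [hujj]; exact one_ne_zero⟩
      have hYcard : YH.card + Z.card = Y.card := by
        rw [hYHdef, hZdef]
        exact Finset.card_filter_add_card_filter_not (fun i => u j (a i) = 0)
      have hZN : Z.erase j ⊆ N := by
        intro i hi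
        have hi1 := Finset.ne_of_mem_erase hi
        have hi2 := Finset.mem_of_mem_erase hi
        rw [hZdef, Finset.mem_filter] at hi2
        by_contra hiN
        apply hi2.2
        apply hzero
        apply Submodule.subset_span
        refine ⟨i, ?_, rfl⟩
        have : i ∈ X.erase j := Finset.mem_erase.2 ⟨hi1, Finset.mem_sdiff.2 ⟨hi2.1, hiN⟩⟩
        exact_mod_cast this
      have hdisYHZ : Disjoint YH Z := by
        rw [hYHdef, hZdef]
        exact Finset.disjoint_filter_filter_not Y Y (fun i => u j (a i) = 0)
      have hNHYH : NH ⊆ YH := by
        rw [hNHdef, hYHdef]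
        exact Finset.filter_subset_filter _ hN
      have hdisNHZ : Disjoint NH Z := Finset.disjoint_of_subset_left hNHYH hdisYHZ
      have hNeq : NH ∪ Z.erase j = N := by
        ext i
        constructor
        · intro hi
          rcases Finset.mem_union.1 hi with hi | hi
          · rw [hNHdef] at hi; exact Finset.mem_of_mem_filter i hi
          · exact hZN hi
        · intro hi
          by_cases h0 : u j (a i) = 0
          · apply Finset.mem_union_left
            rw [hNHdef, Finset.mem_filter]; exact ⟨hi, h0⟩
          · apply Finset.mem_union_right
            refine Finset.mem_erase.2 ⟨fun h => hjN (h ▸ hi), ?_⟩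
            rw [hZdef, Finset.mem_filter]; exact ⟨hN hi, h0⟩
      have hNcard : NH.card + (Z.card - 1) = r := by
        rw [← hNc, ← hNeq, Finset.card_union_of_disjoint
          (Finset.disjoint_of_subset_right (Finset.erase_subset j Z) hdisNHZ),
          Finset.card_erase_of_mem hjZ]
      have hZpos : 1 ≤ Z.card := Finset.card_pos.2 ⟨j, hjZ⟩
      have hXH : X.erase j ⊆ YH := by
        intro i hi
        rw [hYHdef, Finset.mem_filter]
        refine ⟨Finset.sdiff_subset (Finset.mem_of_mem_erase hi), ?_⟩
        apply hzero
        exact Submodule.subset_span ⟨i, by exact_mod_cast hi, rfl⟩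
      have hYHspan : Submodule.span K (a '' (YH : Set ι)) = H := by
        apply le_antisymm
        · apply Submodule.span_le.2
          rintro x ⟨i, hi, rfl⟩
          have hi' : i ∈ YH := by exact_mod_cast hi
          rw [hYHdef, Finset.mem_filter] at hi'
          exact hmemH _ (hYW i hi'.1) hi'.2
        · rw [hHdef]; apply Submodule.span_mono; apply Set.image_mono; exact_mod_cast hXH
      have hcnt : ∀ U : Submodule K V, U ≤ H → cnt a YH U = cnt a Y U := by
        intro U hU
        unfold cnt
        congr 1
        ext i
        simp only [hYHdef, Finset.mem_filter]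
        constructor
        · rintro ⟨⟨h1, _⟩, h3⟩; exact ⟨h1, h3⟩
        · rintro ⟨h1, h2⟩; exact ⟨⟨h1, hzero _ (hU h2)⟩, h2⟩
      -- the functional on H
      let gH : A →ₗ[K] L := ∑ z ∈ Z, u j (a z) • (g ∘ₗ LinearMap.mulRight K (pr lin a (Z.erase z)))
      have hgH : ∀ x, gH x = ∑ z ∈ Z, u j (a z) • g (x * pr lin a (Z.erase z)) := by
        intro x
        simp [gH, LinearMap.sum_apply]
      have hconc := ih (w - 1) (by omega) H hHrank YH NH.card hYHspan (by omega)
        (fun U hU => by rw [hcnt U hU]; exact hcap U (hU.trans hHW))
        (fun U hU h1 h2 H' hH' => by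
          rw [hcnt U hU] at h1 h2
          rw [hcnt H' (hH'.le.trans hU)]
          exact hcond U (hU.trans hHW) h1 h2 H' hH')
        gH
        (fun v x => by
          rw [hgH]
          apply Finset.sum_eq_zero
          intro z _
          rw [mul_assoc, hgp, smul_zero])
        (fun u' N'' hN'' hN''c hN''s => by
          rw [hgH]
          have hN''Z : Disjoint N'' Z := Finset.disjoint_of_subset_left hN'' hdisYHZ
          apply descent lin D hD a N'' Z hN''Z (u j)
          · intro i hi
            have := hN'' hi
            rw [hYHdef, Finset.mem_filter] at this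
            exact this.2
          · intro u'' z hz
            have hzZ := hz
            rw [hZdef, Finset.mem_filter] at hzZ
            apply hgD u''
            · intro i hi
              rcases Finset.mem_union.1 hi with hi | hi
              · have := hN'' hi
                rw [hYHdef, Finset.mem_filter] at this
                exact this.1
              · have := Finset.mem_of_mem_erase hi
                rw [hZdef, Finset.mem_filter] at this
                exact this.1
            · rw [Finset.card_union_of_disjoint
                (Finset.disjoint_of_subset_right (Finset.erase_subset z Z) hN''Z),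
                Finset.card_erase_of_mem hz, hN''c]
              omega
            · apply le_antisymm
              · apply Submodule.span_le.2
                rintro x ⟨i, hi, rfl⟩
                have hi' : i ∈ Y \ (N'' ∪ Z.erase z) := by exact_mod_cast hi
                exact hYW i (Finset.sdiff_subset hi')
              · intro v hv
                set T := Submodule.span K (a '' ((Y \ (N'' ∪ Z.erase z) : Finset ι) : Set ι))
                  with hT
                have hHT : H ≤ T := by
                  rw [← hN''s, hT]
                  apply Submodule.span_mono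
                  apply Set.image_mono
                  intro i hi
                  have hi' : i ∈ YH \ N'' := by exact_mod_cast hi
                  have h1 := Finset.mem_sdiff.1 hi'
                  have : i ∈ Y \ (N'' ∪ Z.erase z) := by
                    rw [Finset.mem_sdiff, Finset.mem_union]
                    have h2 := h1.1
                    rw [hYHdef, Finset.mem_filter] at h2
                    refine ⟨h2.1, ?_⟩
                    rintro (h3 | h3)
                    · exact h1.2 h3
                    · exact (Finset.disjoint_left.1 hdisYHZ h1.1) (Finset.mem_of_mem_erase h3)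
                  exact_mod_cast this
                have hzT : a z ∈ T := by
                  rw [hT]
                  apply Submodule.subset_span
                  refine ⟨z, ?_, rfl⟩
                  have : z ∈ Y \ (N'' ∪ Z.erase z) := by
                    rw [Finset.mem_sdiff, Finset.mem_union]
                    refine ⟨hzZ.1, ?_⟩
                    rintro (h3 | h3)
                    · exact (Finset.disjoint_left.1 hN''Z h3) hz
                    · exact Finset.notMem_erase z Z h3
                  exact_mod_cast this
                have h1 : v - ((u j v) * (u j (a z))⁻¹) • a z ∈ H := by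
                  apply hmemH
                  · exact Submodule.sub_mem _ hv (Submodule.smul_mem _ _ (hYW z hzZ.1))
                  · rw [map_sub, map_smul, smul_eq_mul, mul_assoc,
                      inv_mul_cancel₀ hzZ.2, mul_one, sub_self]
                have h2 := Submodule.add_mem _ (hHT h1)
                  (Submodule.smul_mem _ ((u j v) * (u j (a z))⁻¹) hzT)
                simpa using h2)
        NH hNHYH rfl (by
          have : YH \ NH = X.erase j := by
            ext i
            constructor
            · intro hi
              have h1 := Finset.mem_sdiff.1 hi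
              have h2 := h1.1
              rw [hYHdef, Finset.mem_filter] at h2
              refine Finset.mem_erase.2 ⟨?_, Finset.mem_sdiff.2 ⟨h2.1, ?_⟩⟩
              · rintro rfl
                rw [hujj] at h2
                exact one_ne_zero h2.2
              · intro hiN
                apply h1.2
                rw [hNHdef, Finset.mem_filter]
                exact ⟨hiN, h2.2⟩
            · intro hi
              refine Finset.mem_sdiff.2 ⟨hXH hi, ?_⟩
              intro h1
              rw [hNHdef, Finset.mem_filter] at h1
              exact (Finset.mem_sdiff.1 (Finset.mem_of_mem_erase hi)).2 h1.1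
          rw [this])
      rw [hgH] at hconc
      have hasc := ascent lin D hD a NH Z (u j) (by
        intro i hi
        rw [hNHdef, Finset.mem_filter] at hi
        exact hi.2) j hjZ hujj g hdisNHZ
      rw [hNeq] at hasc
      rw [hasc]; exact hconc
  -- sum over `β`
  have hsum : ∑ j ∈ β, (g (pr lin a N) + g (lin (a j) * D (u j) (pr lin a N))) = 0 :=
    Finset.sum_eq_zero key
  rw [Finset.sum_add_distrib, Finset.sum_const, hβcard, ← map_sum] at hsum
  have heul : ∑ j ∈ β, lin (a j) * D (u j) (pr lin a N) = (r : ℕ) • pr lin a N := by
    have h1 : ∀ j ∈ β, lin (a j) * D (u j) (pr lin a N) =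
        ∑ i ∈ N, u j (a i) • (lin (a j) * pr lin a (N.erase i)) := by
      intro j _
      rw [der_pr lin a (D (u j)) (u j) (hD (u j)), Finset.mul_sum]
      apply Finset.sum_congr rfl
      intro i _
      rw [mul_smul_comm]
    rw [Finset.sum_congr rfl h1, Finset.sum_comm, ← hNc]
    rw [← Finset.sum_const]
    apply Finset.sum_congr rfl
    intro i hi
    have h2 : ∑ j ∈ β, u j (a i) • (lin (a j) * pr lin a (N.erase i)) =
        lin (∑ j ∈ β, u j (a i) • a j) * pr lin a (N.erase i) := by
      rw [map_sum, Finset.sum_mul]
      apply Finset.sum_congr rfl
      intro j _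
      rw [map_smul, smul_mul_assoc]
    rw [h2, ← hexp (a i) (hYW i (hN hi)), lin_mul_pr_erase lin a hi]
  rw [heul, map_nsmul, ← add_nsmul, ← Nat.cast_smul_eq_nsmul K] at hsum
  rcases smul_eq_zero.1 hsum with h | h
  · exfalso
    rw [CharP.cast_eq_zero_iff K p] at h
    exact hnd h
  · exact h

end Pool.Agent.AT75
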