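import Mathlib

set_option autoImplicit false

namespace Pool.Agent.AT75

open MvPolynomial

variable {K : Type*} [Field K] {n : ℕ}

lemma reduced_zero {p : ℕ} [Fact p.Prime] [CharP K p]
    (J : Ideal (MvPolynomial (Fin n) K))
    (h2 : ∀ i x, x ∈ J → pderiv i x ∈ J) (h3 : (1 : MvPolynomial (Fin n) K) ∉ J) :
    ∀ (d : ℕ) (R : MvPolynomial (Fin n) K), R ∈ J →
      (∀ α ∈ R.support, (∑ i, α i ≤ d) ∧ ∀ i, α i < p) → R = 0 := by
  intro d
  induction d with
  | zero =>
    intro R hR hsupp
    by_contra hne
    have h0 : R = C (coeff 0 R) := by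
      ext α
      rw [coeff_C]
      split_ifs with h
      · rw [← h]
      · by_contra hα
        have := (hsupp α (mem_support_iff.2 hα)).1
        apply h
        have h4 : ∑ i, α i = 0 := by omega
        ext i
        exact ((Finset.sum_eq_zero_iff.1 h4) i (Finset.mem_univ i)).symm
    have hc : coeff 0 R ≠ 0 := by
      intro hc; rw [hc, map_zero] at h0; exact hne h0
    apply h3
    have : (1 : MvPolynomial (Fin n) K) = C (coeff 0 R)⁻¹ * R := by
      conv_rhs => rw [h0]
      rw [← map_mul, coeff_C]
      simp [hc]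
    rw [this]
    exact J.mul_mem_left _ hR
  | succ d ih =>
    intro R hR hsupp
    have hder : ∀ i, pderiv i R = 0 := by
      intro i
      apply ih _ (h2 i R hR)
      intro γ hγ
      rw [mem_support_iff, coeff_pderiv] at hγ
      have h4 : coeff (γ + Finsupp.single i 1) R ≠ 0 := by
        intro h; rw [h] at hγ; simp at hγ
      have h5 := hsupp _ (mem_support_iff.2 h4)
      constructor
      · have h6 := h5.1
        simp only [Finsupp.add_apply, Finset.sum_add_distrib] at h6
        have h7 : ∑ j, (Finsupp.single i 1 : Fin n →₀ ℕ) j = 1 := by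
          rw [Finset.sum_eq_single i]
          · simp
          · intro j _ hj; simp [hj.symm]
          · simp
        omega
      · intro j
        have := h5.2 j
        simp only [Finsupp.add_apply] at this
        omega
    apply ih R hR
    intro α hα
    refine ⟨?_, (hsupp α hα).2⟩
    by_contra hbig
    have : ∃ i, α i ≠ 0 := by
      by_contra hcon
      push Not at hcon
      simp [hcon] at hbig
    obtain ⟨i, hi⟩ := this
    have h5 : coeff (α - Finsupp.single i 1) (pderiv i R) = 0 := by rw [hder i]; simp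
    rw [coeff_pderiv] at h5
    have h6 : α - Finsupp.single i 1 + Finsupp.single i 1 = α := by
      ext j
      simp only [Finsupp.add_apply, Finsupp.tsub_apply]
      by_cases hj : i = j
      · subst hj; simp; omega
      · simp [hj]
    rw [h6] at h5
    have h7 : coeff α R ≠ 0 := mem_support_iff.1 hα
    have h8 : (((α - Finsupp.single i 1 : Fin n →₀ ℕ) i : ℕ) : K) + 1 ≠ 0 := by
      intro h
      have h9 : (((α - Finsupp.single i 1 : Fin n →₀ ℕ) i + 1 : ℕ) : K) = 0 := by
        push_cast; exact h
      rw [CharP.cast_eq_zero_iff K p] at h9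
      have h10 := Nat.le_of_dvd (by omega) h9
      have h11 := (hsupp α hα).2 i
      simp only [Finsupp.tsub_apply, Finsupp.single_eq_same] at h10
      omega
    rcases mul_eq_zero.1 h5 with h | h
    · exact h7 h
    · exact h8 h

lemma mem_prop {p : ℕ} [hp : Fact p.Prime] [CharP K p]
    (J : Ideal (MvPolynomial (Fin n) K)) (h1 : ∀ i, X i ^ p ∈ J)
    (h2 : ∀ i x, x ∈ J → pderiv i x ∈ J) (h3 : (1 : MvPolynomial (Fin n) K) ∉ J)
    (Q : MvPolynomial (Fin n) K) (hQ : Q ∈ J) :
    ∀ α ∈ Q.support, ∃ i, p ≤ α i := by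
  classical
  have hbig : ∀ (α : Fin n →₀ ℕ) (c : K), (∃ i, p ≤ α i) → monomial α c ∈ J := by
    rintro α c ⟨i, hi⟩
    have : monomial α c = monomial (α - Finsupp.single i p) c * X i ^ p := by
      rw [X_pow_eq_monomial, monomial_mul, mul_one]
      congr 2
      ext j
      simp only [Finsupp.add_apply, Finsupp.tsub_apply]
      by_cases hj : i = j
      · subst hj; simp; omega
      · simp [hj]
    rw [this]; exact J.mul_mem_left _ (h1 i)
  set R : MvPolynomial (Fin n) K :=
    ∑ α ∈ Q.support.filter (fun α => ∀ i, α i < p), monomial α (coeff α Q) with hR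
  have hcoeff : ∀ α, coeff α R = if ∀ i, α i < p then coeff α Q else 0 := by
    intro α
    rw [hR, coeff_sum]
    simp only [coeff_monomial]
    rw [Finset.sum_ite_eq' (Q.support.filter (fun α => ∀ i, α i < p)) α]
    simp only [Finset.mem_filter, mem_support_iff]
    by_cases h : ∀ i, α i < p
    · by_cases h' : coeff α Q = 0
      · simp [h']
      · simp [h', h]
    · simp [h]
  have hRJ : R ∈ J := by
    have h4 : Q = R + ∑ α ∈ Q.support.filter (fun α => ¬ ∀ i, α i < p),
        monomial α (coeff α Q) := by
      rw [hR, Finset.sum_filter_add_sum_filter_not]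
      exact Q.as_sum
    have h5 : ∑ α ∈ Q.support.filter (fun α => ¬ ∀ i, α i < p), monomial α (coeff α Q) ∈ J := by
      apply J.sum_mem
      intro α hα
      rw [Finset.mem_filter] at hα
      apply hbig
      have := hα.2
      push Not at this
      exact this
    have h6 : R = Q - ∑ α ∈ Q.support.filter (fun α => ¬ ∀ i, α i < p),
        monomial α (coeff α Q) := by
      rw [eq_sub_iff_add_eq]; exact h4.symm
    rw [h6]; exact J.sub_mem hQ h5
  have hR0 : R = 0 := by
    apply reduced_zero (p := p) J h2 h3 (R.support.sup (fun α => ∑ i, α i)) R hRJ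
    intro α hα
    refine ⟨Finset.le_sup (f := fun α : Fin n →₀ ℕ => ∑ i, α i) hα, ?_⟩
    rw [mem_support_iff, hcoeff] at hα
    by_contra h
    simp [h] at hα
  intro α hα
  by_contra hcon
  push Not at hcon
  have := hcoeff α
  rw [hR0, if_pos hcon] at this
  rw [mem_support_iff] at hα
  simp at this
  exact hα this.symm

/-- socle lemma -/
lemma socle {p : ℕ} [hp : Fact p.Prime] [CharP K p]
    (J : Ideal (MvPolynomial (Fin n) K)) (h1 : ∀ i, X i ^ p ∈ J)
    (h2 : ∀ i x, x ∈ J → pderiv i x ∈ J) (h3 : (1 : MvPolynomial (Fin n) K) ∉ J)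
    (P : MvPolynomial (Fin n) K) (m : ℕ) (hP : P.IsHomogeneous m) (T : Finset (Fin n))
    (hX : ∀ i ∈ T, X i * P ∈ J) (hPJ : P ∉ J) : (p - 1) * T.card ≤ m := by
  classical
  have key : ∃ α ∈ P.support, ∀ i, α i < p := by
    by_contra hcon
    push Not at hcon
    apply hPJ
    rw [P.as_sum]
    apply J.sum_mem
    intro α hα
    obtain ⟨i, hi⟩ := hcon α hα
    have : monomial α (coeff α P) = monomial (α - Finsupp.single i p) (coeff α P) * X i ^ p := by
      rw [X_pow_eq_monomial, monomial_mul, mul_one]
      congr 2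
      ext j
      simp only [Finsupp.add_apply, Finsupp.tsub_apply]
      by_cases hj : i = j
      · subst hj; simp; omega
      · simp [hj]
    rw [this]; exact J.mul_mem_left _ (h1 i)
  obtain ⟨α, hα, hαp⟩ := key
  have hdeg : ∑ i, α i = m := by
    have := hP (mem_support_iff.1 hα)
    rw [← this, Finsupp.weight_apply]
    simp [Finsupp.sum_fintype]
  have hT : ∀ i ∈ T, p - 1 ≤ α i := by
    intro i hi
    have h5 : Finsupp.single i 1 + α ∈ (X i * P).support := by
      rw [mem_support_iff, coeff_X_mul]; exact mem_support_iff.1 hα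
    obtain ⟨j, hj⟩ := mem_prop (p := p) J h1 h2 h3 _ (hX i hi) _ h5
    simp only [Finsupp.add_apply] at hj
    by_cases hij : i = j
    · subst hij; simp at hj; omega
    · have h6 := hαp j
      simp [hij] at hj
      omega
  calc (p - 1) * T.card = ∑ i ∈ T, (p - 1) := by simp [mul_comm]
    _ ≤ ∑ i ∈ T, α i := Finset.sum_le_sum hT
    _ ≤ ∑ i, α i := Finset.sum_le_sum_of_subset (Finset.subset_univ T)
    _ = m := hdeg

end Pool.Agent.AT75
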