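import Pool.Agent.Helper75_AT.Lev2
import Pool.Agent.Helper75_AT.Poly

set_option autoImplicit false

namespace Pool.Agent.AT75

open Finset Module

variable {ι K V A : Type*} [DecidableEq ι] [Field K] [AddCommGroup V] [Module K V]
  [CommRing A] [Algebra K A]

/-- the algebra map sending the variables to the forms of a basis -/
noncomputable def Phi (lin : V →ₗ[K] A) {n : ℕ} (b : Basis (Fin n) K V) :
    MvPolynomial (Fin n) K →ₐ[K] A :=
  MvPolynomial.aeval (fun i => lin (b i))

lemma Phi_pderiv (lin : V →ₗ[K] A) (D : Dual K V → Derivation K A A)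
    (hD : ∀ u v, D u (lin v) = algebraMap K A (u v)) {n : ℕ} (b : Basis (Fin n) K V)
    (i : Fin n) (x : MvPolynomial (Fin n) K) :
    Phi lin b (MvPolynomial.pderiv i x) = D (b.coord i) (Phi lin b x) := by
  classical
  induction x using MvPolynomial.induction_on with
  | C c => simp [Phi]
  | add x y hx hy => simp only [map_add, hx, hy]
  | mul_X x j hx =>
    rw [Derivation.leibniz, map_mul, Derivation.leibniz, map_add]
    simp only [smul_eq_mul, map_mul, hx]
    have h1 : Phi lin b (MvPolynomial.X j) = lin (b j) := by simp [Phi]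
    rw [h1, hD, MvPolynomial.pderiv_X]
    by_cases hij : i = j
    · subst hij; simp
    · simp [Ne.symm hij, hij]

/-- the linear polynomial of a vector -/
noncomputable def lp {n : ℕ} (b : Basis (Fin n) K V) (v : V) : MvPolynomial (Fin n) K :=
  ∑ i, MvPolynomial.C (b.repr v i) * MvPolynomial.X i

omit [DecidableEq ι] in
lemma lp_hom {n : ℕ} (b : Basis (Fin n) K V) (v : V) : (lp b v).IsHomogeneous 1 := by
  unfold lp
  apply MvPolynomial.IsHomogeneous.sum
  intro i _
  have := (MvPolynomial.isHomogeneous_C (Fin n) (b.repr v i)).mul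
    (MvPolynomial.isHomogeneous_X K i)
  simpa using this

omit [DecidableEq ι] in
lemma Phi_lp (lin : V →ₗ[K] A) {n : ℕ} (b : Basis (Fin n) K V) (v : V) :
    Phi lin b (lp b v) = lin v := by
  unfold lp
  rw [map_sum]
  have h1 : ∀ i ∈ (Finset.univ : Finset (Fin n)),
      Phi lin b (MvPolynomial.C (b.repr v i) * MvPolynomial.X i) = lin (b.repr v i • b i) := by
    intro i _
    rw [map_mul, map_smul, Algebra.smul_def]
    simp [Phi]
  rw [Finset.sum_congr rfl h1, ← map_sum, b.sum_repr]

omit [DecidableEq ι] in
lemma exists_adapted [FiniteDimensional K V] (W : Submodule K V) :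
    ∃ (b : Basis (Fin (finrank K V)) K V) (T : Finset (Fin (finrank K V))),
      T.card = finrank K W ∧ ∀ i ∈ T, b i ∈ W := by
  classical
  obtain ⟨W', hW'⟩ := Submodule.exists_isCompl W
  set b₀ := ((Module.finBasis K W).prod (Module.finBasis K W')).map
    (Submodule.prodEquivOfIsCompl W W' hW') with hb₀
  have hcard : Fintype.card (Fin (finrank K W) ⊕ Fin (finrank K W')) = finrank K V := by
    rw [Module.finrank_eq_card_basis b₀]
  set e := Fintype.equivFinOfCardEq hcard with he
  refine ⟨b₀.reindex e, (Finset.univ.map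
    ⟨fun i : Fin (finrank K W) => e (Sum.inl i), ?_⟩), ?_, ?_⟩
  · intro i j h
    exact Sum.inl_injective (e.injective h)
  · rw [Finset.card_map]; simp
  · intro i hi
    rw [Finset.mem_map] at hi
    obtain ⟨j, _, rfl⟩ := hi
    have : (b₀.reindex e) (e (Sum.inl j)) = ((Module.finBasis K W j : W) : V) := by
      rw [Basis.reindex_apply, Equiv.symm_apply_apply, hb₀, Basis.map_apply]
      simp
    show (b₀.reindex e) (e (Sum.inl j)) ∈ W
    rw [this]; exact (Module.finBasis K W j).2

omit [DecidableEq ι] in
lemma socle_abs [FiniteDimensional K V] {p : ℕ} [hp : Fact p.Prime] [CharP K p]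
    (lin : V →ₗ[K] A) (D : Dual K V → Derivation K A A)
    (hD : ∀ u v, D u (lin v) = algebraMap K A (u v)) (I : Ideal A)
    (hI1 : ∀ v, lin v ^ p ∈ I) (hI2 : ∀ u x, x ∈ I → D u x ∈ I) (hI3 : (1 : A) ∉ I)
    (a : ι → V) (C : Finset ι) (W : Submodule K V)
    (h : ∀ v ∈ W, lin v * pr lin a C ∈ I) (hCI : pr lin a C ∉ I) :
    (p - 1) * finrank K W ≤ C.card := by
  obtain ⟨b, T, hT, hTW⟩ := exists_adapted (K := K) W
  have h1 : Phi lin b (∏ j ∈ C, lp b (a j)) = pr lin a C := by
    rw [map_prod]
    unfold pr
    apply Finset.prod_congr rfl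
    intro j _; exact Phi_lp lin b (a j)
  have h2 : (∏ j ∈ C, lp b (a j)).IsHomogeneous C.card := by
    have := MvPolynomial.IsHomogeneous.prod C (fun j => lp b (a j)) (fun _ => 1)
      (fun j _ => lp_hom b (a j))
    simpa using this
  have h3 := socle (p := p) (I.comap (Phi lin b)) (fun i => by
      rw [Ideal.mem_comap, map_pow]
      have : Phi lin b (MvPolynomial.X i) = lin (b i) := by simp [Phi]
      rw [this]; exact hI1 _)
    (fun i x hx => by
      rw [Ideal.mem_comap] at hx ⊢
      rw [Phi_pderiv lin D hD b i x]; exact hI2 _ _ hx)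
    (by rw [Ideal.mem_comap, map_one]; exact hI3)
    (∏ j ∈ C, lp b (a j)) C.card h2 T
    (fun i hi => by
      rw [Ideal.mem_comap, map_mul, h1]
      have : Phi lin b (MvPolynomial.X i) = lin (b i) := by simp [Phi]
      rw [this]; exact h _ (hTW i hi))
    (by rw [Ideal.mem_comap, h1]; exact hCI)
  rw [hT] at h3
  exact h3

/-- The main theorem in abstract form. -/
theorem main_abs [FiniteDimensional K V] {p : ℕ} [hp : Fact p.Prime] [CharP K p]
    (lin : V →ₗ[K] A) (D : Dual K V → Derivation K A A)
    (hD : ∀ u v, D u (lin v) = algebraMap K A (u v)) (I : Ideal A)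
    (hI1 : ∀ v, lin v ^ p ∈ I) (hI2 : ∀ u x, x ∈ I → D u x ∈ I) (hI3 : (1 : A) ∉ I)
    (a : ι → V) (M : Finset ι) (hM : M.card = p * finrank K V)
    (hcap : ∀ U : Submodule K V, cnt a M U ≤ p * finrank K U)
    (hcond : ∀ U : Submodule K V, U ≠ ⊤ → ∀ s : ℕ, 2 ≤ s →
      s ≤ p * (finrank K V - finrank K U) → finrank K U + s ≤ cnt a M U →
      p ∣ (cnt a M U - s) → ∀ H : Submodule K V, H < U → cnt a M H < finrank K H + s) :
    ∃ C ⊆ M, C.card = (p - 1) * finrank K V ∧ pr lin a C ∉ I := by
  classical
  have hp' : p.Prime := hp.out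
  set n := finrank K V with hn
  by_contra hcon
  push Not at hcon
  -- sets with nonzero product are small
  have hsmall : ∀ C ⊆ M, pr lin a C ∉ I → C.card < (p - 1) * n := by
    intro C hC hCI
    by_contra hge
    push Not at hge
    obtain ⟨C', hC', hcard⟩ := Finset.exists_subset_card_eq hge
    have h1 := hcon C' (hC'.trans hC) hcard
    apply hCI
    have h2 : pr lin a C = pr lin a (C \ C') * pr lin a C' := by
      rw [← pr_union lin a Finset.sdiff_disjoint, Finset.sdiff_union_of_subset hC']
    rw [h2]; exact I.mul_mem_left _ h1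
  -- choose a maximal set
  set rk : Finset ι → ℕ := fun C =>
    finrank K (Submodule.span K (a '' ((M \ C : Finset ι) : Set ι))) with hrk
  have hne : (M.powerset.filter (fun C => pr lin a C ∉ I)).Nonempty := by
    refine ⟨∅, ?_⟩
    rw [Finset.mem_filter]
    refine ⟨Finset.empty_mem_powerset M, ?_⟩
    simpa [pr] using hI3
  obtain ⟨C₀, hC₀, hmax₀⟩ := Finset.exists_max_image _ (fun C : Finset ι => C.card) hne
  have hne2 : (M.powerset.filter (fun C => pr lin a C ∉ I ∧ C.card = C₀.card)).Nonempty := by
    refine ⟨C₀, ?_⟩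
    rw [Finset.mem_filter] at hC₀ ⊢
    exact ⟨hC₀.1, hC₀.2, rfl⟩
  obtain ⟨C, hC, hmax⟩ := Finset.exists_max_image _ rk hne2
  rw [Finset.mem_filter, Finset.mem_powerset] at hC
  obtain ⟨hCM, hCI, hCcard⟩ := hC
  set k := C.card with hk
  have hkmax : ∀ C' ⊆ M, k < C'.card → pr lin a C' ∈ I := by
    intro C' hC' hlt
    by_contra hnot
    have := hmax₀ C' (by rw [Finset.mem_filter, Finset.mem_powerset]; exact ⟨hC', hnot⟩)
    omega
  have hrkmax : ∀ C' ⊆ M, C'.card = k → rk C < rk C' → pr lin a C' ∈ I := by
    intro C' hC' hc hlt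
    by_contra hnot
    have := hmax C' (by
      rw [Finset.mem_filter, Finset.mem_powerset]
      exact ⟨hC', hnot, by rw [hc, ← hCcard]⟩)
    omega
  have hklt : k < (p - 1) * n := hsmall C hCM hCI
  set W := Submodule.span K (a '' ((M \ C : Finset ι) : Set ι)) with hW
  -- products with vectors of W vanish
  have hWmul : ∀ v ∈ W, lin v * pr lin a C ∈ I := by
    intro v hv
    rw [hW] at hv
    induction hv using Submodule.span_induction with
    | mem x hx =>
      obtain ⟨i, hi, rfl⟩ := hx
      have hi' : i ∈ M \ C := by exact_mod_cast hi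
      rw [Finset.mem_sdiff] at hi'
      rw [← pr_insert lin a hi'.2]
      apply hkmax
      · intro l hl
        rcases Finset.mem_insert.1 hl with rfl | hl
        · exact hi'.1
        · exact hCM hl
      · rw [Finset.card_insert_of_notMem hi'.2]; omega
    | zero => simp
    | add x y _ _ hx hy => rw [map_add, add_mul]; exact I.add_mem hx hy
    | smul c x _ hx =>
      rw [map_smul, smul_mul_assoc, Algebra.smul_def]; exact I.mul_mem_left _ hx
  have hkW := socle_abs (p := p) lin D hD I hI1 hI2 hI3 a C W hWmul hCI
  -- W is proper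
  have hWtop : W ≠ ⊤ := by
    intro htop
    rw [htop, finrank_top, ← hn, ← hk] at hkW
    omega
  have hWlt : W < ⊤ := lt_top_iff_ne_top.2 hWtop
  have hwn : finrank K W < n := by
    exact Submodule.finrank_lt hWtop
  -- the sets Y, N, E
  set Y := M.filter (fun i => a i ∈ W) with hY
  set E := M.filter (fun i => a i ∉ W) with hE
  set N := C.filter (fun i => a i ∈ W) with hN
  have hMC : M \ C ⊆ Y := by
    intro i hi
    rw [hY, Finset.mem_filter]
    refine ⟨Finset.sdiff_subset hi, Submodule.subset_span ⟨i, by exact_mod_cast hi, rfl⟩⟩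
  have hEC : E ⊆ C := by
    intro i hi
    by_contra hiC
    have h1 := Finset.mem_filter.1 hi
    have h2 := hMC (Finset.mem_sdiff.2 ⟨h1.1, hiC⟩)
    rw [hY, Finset.mem_filter] at h2
    exact h1.2 h2.2
  have hNY : N ⊆ Y := Finset.filter_subset_filter _ hCM
  have hdisEY : Disjoint E Y := by
    rw [hE, hY]
    exact (Finset.disjoint_filter_filter_not M M (fun i => a i ∈ W)).symm
  have hEN : E ∪ N = C := by
    ext i
    rw [Finset.mem_union]
    constructor
    · rintro (hi | hi)
      · exact hEC hi
      · exact Finset.mem_of_mem_filter i hi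
    · intro hi
      by_cases h : a i ∈ W
      · right; rw [hN, Finset.mem_filter]; exact ⟨hi, h⟩
      · left; rw [hE, Finset.mem_filter]; exact ⟨hCM hi, h⟩
  have hYN : Y \ N = M \ C := by
    ext i
    constructor
    · intro hi
      rw [Finset.mem_sdiff] at hi ⊢
      rw [hY, Finset.mem_filter, hN, Finset.mem_filter] at hi
      exact ⟨hi.1.1, fun h => hi.2 ⟨h, hi.1.2⟩⟩
    · intro hi
      rw [Finset.mem_sdiff]
      refine ⟨hMC hi, ?_⟩
      intro h
      rw [hN, Finset.mem_filter] at h
      exact (Finset.mem_sdiff.1 hi).2 h.1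
  have hXcard : (M \ C).card = p * n - k := by
    rw [Finset.card_sdiff_of_subset hCM, hM]
  have hpn : p * n = (p - 1) * n + n := by
    obtain ⟨q, rfl⟩ : ∃ q, p = q + 1 := ⟨p - 1, by have := hp'.pos; omega⟩
    simp only [Nat.add_sub_cancel]; ring
  set s := p * n - k - finrank K W with hs
  have hs2 : 2 ≤ s := by omega
  have hYcard : Y.card = finrank K W + s + N.card := by
    have h1 : (Y \ N).card = Y.card - N.card := Finset.card_sdiff_of_subset hNY
    have h2 : N.card ≤ Y.card := Finset.card_le_card hNY
    rw [hYN, hXcard] at h1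
    omega
  have hYspan : Submodule.span K (a '' (Y : Set ι)) = W := by
    apply le_antisymm
    · apply Submodule.span_le.2
      rintro x ⟨i, hi, rfl⟩
      have hi' : i ∈ Y := by exact_mod_cast hi
      rw [hY, Finset.mem_filter] at hi'
      exact hi'.2
    · rw [hW]; apply Submodule.span_mono; apply Set.image_mono; exact_mod_cast hMC
  have hcnt : ∀ U : Submodule K V, U ≤ W → cnt a Y U = cnt a M U := by
    intro U hU
    unfold cnt
    congr 1
    ext i
    simp only [hY, Finset.mem_filter]
    constructor
    · rintro ⟨⟨h1, _⟩, h3⟩; exact ⟨h1, h3⟩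
    · rintro ⟨h1, h2⟩; exact ⟨⟨h1, hU h2⟩, h2⟩
  -- the functional
  let g : A →ₗ[K] (A ⧸ I) :=
    (Ideal.Quotient.mkₐ K I).toLinearMap ∘ₗ LinearMap.mulLeft K (pr lin a E)
  have hg : ∀ x, g x = Ideal.Quotient.mk I (pr lin a E * x) := fun x => rfl
  have hconc := lev (p := p) lin D hD a s (by omega) (finrank K W) W rfl Y N.card hYspan hYcard
    (fun U hU => by rw [hcnt U hU]; exact hcap U)
    (fun U hU h1 h2 H hH => by
      rw [hcnt U hU] at h1 h2
      rw [hcnt H (hH.le.trans hU)]
      refine hcond U (ne_of_lt (lt_of_le_of_lt hU hWlt)) s hs2 ?_ h1 h2 H hH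
      have h3 : finrank K U ≤ finrank K W := Submodule.finrank_mono hU
      have h4 : p * (n - finrank K W) ≤ p * (n - finrank K U) :=
        Nat.mul_le_mul_left _ (by omega)
      have h5 : p * (n - finrank K W) = p * n - p * finrank K W := Nat.mul_sub p n _
      have h6 : p * finrank K W = (p - 1) * finrank K W + finrank K W := by
        obtain ⟨q, rfl⟩ : ∃ q, p = q + 1 := ⟨p - 1, by have := hp'.pos; omega⟩
        simp only [Nat.add_sub_cancel]; ring
      omega)
    g
    (fun v x => by
      rw [hg, Ideal.Quotient.eq_zero_iff_mem]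
      have : pr lin a E * (lin v ^ p * x) = (pr lin a E * x) * lin v ^ p := by ring
      rw [this]; exact I.mul_mem_left _ (hI1 v))
    (fun u N' hN' hN'c hN's => by
      rw [hg, Ideal.Quotient.eq_zero_iff_mem]
      have hdis : Disjoint E N' := Finset.disjoint_of_subset_right hN' hdisEY
      have hN'M : N' ⊆ M := hN'.trans (Finset.filter_subset _ _)
      have hEM : E ⊆ M := Finset.filter_subset _ _
      have hCk : E.card + N.card = k := by
        rw [← Finset.card_union_of_disjoint
          (Finset.disjoint_of_subset_right hNY hdisEY), hEN]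
      have h1 : pr lin a (E ∪ N') ∈ I := by
        apply hkmax
        · exact Finset.union_subset hEM hN'M
        · rw [Finset.card_union_of_disjoint hdis, hN'c]; omega
      have h2 := hI2 u _ h1
      rw [pr_union lin a hdis, Derivation.leibniz] at h2
      have h3 : pr lin a N' • D u (pr lin a E) ∈ I := by
        rw [der_pr lin a (D u) u (hD u) E, Finset.smul_sum]
        apply I.sum_mem
        intro i hi
        have hi' := Finset.mem_filter.1 hi
        rw [smul_comm, Algebra.smul_def]
        apply I.mul_mem_left
        rw [smul_eq_mul, mul_comm, ← pr_union lin a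
          (Finset.disjoint_of_subset_left (Finset.erase_subset i E) hdis)]
        apply hrkmax
        · exact Finset.union_subset ((Finset.erase_subset i E).trans hEM) hN'M
        · rw [Finset.card_union_of_disjoint
            (Finset.disjoint_of_subset_left (Finset.erase_subset i E) hdis),
            Finset.card_erase_of_mem hi, hN'c]
          have : 1 ≤ E.card := Finset.card_pos.2 ⟨i, hi⟩
          omega
        · -- rank grows
          have h4 : W < Submodule.span K
              (a '' ((M \ (E.erase i ∪ N') : Finset ι) : Set ι)) := by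
            apply lt_of_le_of_ne
            · rw [← hN's]
              apply Submodule.span_mono
              apply Set.image_mono
              intro l hl
              have hl' : l ∈ Y \ N' := by exact_mod_cast hl
              rw [Finset.mem_sdiff] at hl'
              have : l ∈ M \ (E.erase i ∪ N') := by
                rw [Finset.mem_sdiff, Finset.mem_union]
                refine ⟨Finset.mem_of_mem_filter l hl'.1, ?_⟩
                rintro (h5 | h5)
                · exact (Finset.disjoint_left.1 hdisEY (Finset.mem_of_mem_erase h5)) hl'.1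
                · exact hl'.2 h5
              exact_mod_cast this
            · intro heq
              apply hi'.2
              rw [heq]
              apply Submodule.subset_span
              refine ⟨i, ?_, rfl⟩
              have : i ∈ M \ (E.erase i ∪ N') := by
                rw [Finset.mem_sdiff, Finset.mem_union]
                refine ⟨hi'.1, ?_⟩
                rintro (h5 | h5)
                · exact Finset.notMem_erase i E h5
                · exact (Finset.disjoint_left.1 hdis hi) h5
              exact_mod_cast this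
          exact Submodule.finrank_lt_finrank_of_lt h4
      have h4 := I.sub_mem h2 h3
      simpa using h4)
    N hNY rfl (by rw [hYN])
  rw [hg, Ideal.Quotient.eq_zero_iff_mem, ← pr_union lin a
    (Finset.disjoint_of_subset_right hNY hdisEY), hEN] at hconc
  exact hCI hconc

end Pool.Agent.AT75
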